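import Mathlib
import Pool.Agent.Helper19.G4.Gen
import Pool.Agent.Helper19.A3.Quot

set_option autoImplicit false
set_option linter.unusedSectionVars false

/-!
# The quotient of a Steiner system at a Veblen point
-/

namespace Pool.Agent.Helper19.G5

open Finset Pool.Agent.V11100.VB Pool.Agent.Helper19.VS Pool.Agent.Helper19.V3
  Pool.Agent.Helper19.G4 Pool.Agent.Helper19.A3

variable {V : Type} [DecidableEq V] [Fintype V] {B : Finset (Finset V)} {q : ℕ}

open Classical in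
/-- the blocks of the quotient: the planes through `p` -/
noncomputable def vB (B : Finset (Finset V)) (q : ℕ) (p : V) : Finset (Finset (Ln B p)) :=
  (univ.filter fun S : Finset V => Pla B q S ∧ p ∈ S).image (star B p)

theorem mem_vB {p : V} {s : Finset (Ln B p)} :
    s ∈ vB B q p ↔ ∃ S, Pla B q S ∧ p ∈ S ∧ star B p S = s := by
  classical
  unfold vB
  rw [mem_image]
  constructor
  · rintro ⟨S, h, e⟩
    rw [mem_filter] at h
    exact ⟨S, h.2.1, h.2.2, e⟩
  · rintro ⟨S, h1, h2, e⟩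
    exact ⟨S, mem_filter.2 ⟨mem_univ _, h1, h2⟩, e⟩

section
variable (H : LS B q)
include H

theorem card_star {A : Finset V} (hA : Cl B A) {p : V} (hp : p ∈ A) :
    A.card = (star B p A).card * q + 1 := by
  have h : A = insert p ((star B p A).biUnion fun b => b.1.erase p) := by
    ext x
    rw [mem_insert, mem_biUnion]
    constructor
    · intro hx
      by_cases hxp : x = p
      · exact Or.inl hxp
      · exact Or.inr ⟨⟨bl B p x, H.bB (Ne.symm hxp), H.b1 (Ne.symm hxp)⟩,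
          mem_star.2 (hA p hp x hx (Ne.symm hxp)), mem_erase.2 ⟨hxp, H.b2 (Ne.symm hxp)⟩⟩
    · rintro (h | ⟨b, hb, hx⟩)
      · exact h ▸ hp
      · exact (mem_star.1 hb) (mem_of_mem_erase hx)
  have hn : p ∉ (star B p A).biUnion fun b => b.1.erase p := by simp
  conv_lhs => rw [h]
  rw [card_insert_of_notMem hn, card_biUnion]
  · rw [sum_congr rfl (fun b _ => by
      rw [card_erase_of_mem b.2.2, H.size b.1 b.2.1, Nat.add_sub_cancel]), sum_const, smul_eq_mul]
  · intro b _ b' _ hne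
    rw [Function.onFun, disjoint_left]
    intro x hx hx'
    rw [mem_erase] at hx hx'
    exact hne (Subtype.ext (H.un hx.1 b.2.1 b'.2.1 hx.2 b.2.2 hx'.2 b'.2.2))

theorem pla_two {S S' : Finset V} (P : Pla B q S) (P' : Pla B q S') {b c : Finset V} (hb : b ∈ B)
    (hc : c ∈ B) (hbc : b ≠ c) {p : V} (pb : p ∈ b) (pc : p ∈ c) (h1 : b ⊆ S) (h2 : c ⊆ S)
    (h3 : b ⊆ S') (h4 : c ⊆ S') : S = S' := by
  obtain ⟨y, yc, yp⟩ := H.two_pts hc p
  have yb : y ∉ b := fun h => yp (H.pt hb hc hbc h yc pb pc)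
  exact P.uniq H P' (h2 yc) (h4 yc) hb h1 h3 yb

theorem pla_sub_cl {S A : Finset V} (P : Pla B q S) (hA : Cl B A) {b c : Finset V} (hb : b ∈ B)
    (hc : c ∈ B) (hbc : b ≠ c) {p : V} (pb : p ∈ b) (pc : p ∈ c) (h1 : b ⊆ S) (h2 : c ⊆ S)
    (h3 : b ⊆ A) (h4 : c ⊆ A) : S ⊆ A := by
  obtain ⟨y, yc, yp⟩ := H.two_pts hc p
  have yb : y ∉ b := fun h => yp (H.pt hb hc hbc h yc pb pc)
  rw [← P.eq H (h2 yc) hb h1 yb]
  exact pl_sub hA (h4 yc) h3 yb

theorem card_star_pla {p : V} {S : Finset V} (P : Pla B q S) (hp : p ∈ S) :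
    (star B p S).card = q + 1 := by
  have h := card_star H P.cl hp
  rw [P.card] at h
  have hq := H.hq
  have : (q + 1) * q = (star B p S).card * q := by omega
  exact (Nat.eq_of_mul_eq_mul_right (by omega) this).symm

theorem vB_LS {p : V} (hp : Veblen B p) : LS (vB B q p) q := by
  refine mkLS H.hq ?_ ?_ ?_
  · intro s hs
    obtain ⟨S, P, h, rfl⟩ := mem_vB.1 hs
    exact card_star_pla H P h
  · intro b c hbc
    obtain ⟨S, P, h1, h2⟩ := veb H hp b.2.1 c.2.1 (fun e => hbc (Subtype.ext e)) b.2.2 c.2.2 b.2.2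
    exact ⟨star B p S, mem_vB.2 ⟨S, P, h1 b.2.2, rfl⟩, mem_star.2 h1, mem_star.2 h2⟩
  · intro b c hbc s hs s' hs' h1 h2 h3 h4
    obtain ⟨S, P, h, rfl⟩ := mem_vB.1 hs
    obtain ⟨S', P', h', rfl⟩ := mem_vB.1 hs'
    rw [mem_star] at h1 h2 h3 h4
    rw [pla_two H P P' b.2.1 c.2.1 (fun e => hbc (Subtype.ext e)) b.2.2 c.2.2 h1 h2 h3 h4]

/-- two planes of a three-dimensional subsystem with a common point have a common block -/
theorem spc_meet {U : Finset V} (T : Spc B q U) {G K : Finset V} (PG : Pla B q G)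
    (PK : Pla B q K) (hG : G ⊆ U) (hK : K ⊆ U) (p : V) :
    ∃ w, w ≠ p ∧ w ∈ G ∧ w ∈ K := by
  have hq := H.hq
  -- a block of `K` not through `p`
  obtain ⟨x, hx, hxp⟩ : ∃ x ∈ K, x ≠ p := by
    apply exists_mem_ne
    rw [PK.card]; nlinarith
  obtain ⟨y, hy, hyb⟩ : ∃ y ∈ K, y ∉ bl B p x := by
    by_contra hcon
    push Not at hcon
    have h1 := card_le_card (show K ⊆ bl B p x from hcon)
    rw [PK.card, H.size _ (H.bB hxp.symm)] at h1
    nlinarith
  have xy : x ≠ y := fun h => hyb (h ▸ H.b2 hxp.symm)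
  have pn : p ∉ bl B x y := by
    intro h
    apply hyb
    rw [bl_of H xy h (H.b1 xy) hxp.symm]
    exact H.b2 xy
  have hs := PK.cl x hx y hy xy
  by_cases hxG : x ∈ G
  · exact ⟨x, hxp, hxG, hx⟩
  · have h := pj_spec H T (hK hx) PG hG hxG (hK hy) xy.symm
    exact ⟨_, fun e => pn (e ▸ h.2), h.1, hs h.2⟩

theorem vB_veblen {p r : V} (hr : Veblen B r) (hpr : p ≠ r) :
    Veblen (vB B q p) (ray H hpr) := by
  intro l hl m hm hlm pl' pm a al b bl' c cm d dm ap bp cp dp g hg h hh ag cg bh dh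
  obtain ⟨Φ, P1, pΦ, rfl⟩ := mem_vB.1 hl
  obtain ⟨Φ', P2, pΦ', rfl⟩ := mem_vB.1 hm
  obtain ⟨G, PG, pG, rfl⟩ := mem_vB.1 hg
  obtain ⟨K, PK, pK, rfl⟩ := mem_vB.1 hh
  rw [mem_star] at pl' pm al bl' cm dm ag cg bh dh
  have rΦ : r ∈ Φ := pl' (H.b2 hpr)
  have rΦ' : r ∈ Φ' := pm (H.b2 hpr)
  have notr : ∀ e : Ln B p, e ≠ ray H hpr → r ∉ e.1 := fun e he hre => he (by
    rw [← ray_eq H hpr hre])
  have hac : a.1 ≠ c.1 := by
    intro e
    apply hlm
    have e1 := al
    rw [e] at e1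
    rw [pla_two H P1 P2 (H.bB hpr) c.2.1 (fun h => notr c cp (h ▸ H.b2 hpr)) (H.b1 hpr) c.2.2
      pl' e1 pm cm]
  have hbd : b.1 ≠ d.1 := by
    intro e
    apply hlm
    have e1 := bl'
    rw [e] at e1
    rw [pla_two H P1 P2 (H.bB hpr) d.2.1 (fun h => notr d dp (h ▸ H.b2 hpr)) (H.b1 hpr) d.2.2
      pl' e1 pm dm]
  have rG : r ∉ G := by
    intro hrG
    have h1 : bl B p r ⊆ G := PG.cl p pG r hrG hpr
    have e1 : Φ = G := pla_two H P1 PG (H.bB hpr) a.2.1 (fun h => notr a ap (h ▸ H.b2 hpr))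
      (H.b1 hpr) a.2.2 pl' al h1 ag
    have e2 : Φ' = G := pla_two H P2 PG (H.bB hpr) c.2.1 (fun h => notr c cp (h ▸ H.b2 hpr))
      (H.b1 hpr) c.2.2 pm cm h1 cg
    exact hlm (by rw [e1, e2])
  have T := spc_cone H hr PG rG
  have rU : r ∈ pl B r G := by
    obtain ⟨y, hy⟩ := Pla.ne H PG
    unfold pl
    rw [mem_biUnion]
    exact ⟨y, hy, H.b1 (fun e => rG (e ▸ hy))⟩
  have GU : G ⊆ pl B r G := by
    intro y hy
    unfold pl
    rw [mem_biUnion]
    exact ⟨y, hy, H.b2 (fun e => rG (e ▸ hy))⟩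
  have ΦU : Φ ⊆ pl B r G :=
    pla_sub_cl H P1 T.cl (H.bB hpr) a.2.1 (fun h => notr a ap (h ▸ H.b2 hpr)) (H.b1 hpr) a.2.2
      pl' al (T.cl p (GU pG) r rU hpr) (ag.trans GU)
  have ΦU' : Φ' ⊆ pl B r G :=
    pla_sub_cl H P2 T.cl (H.bB hpr) c.2.1 (fun h => notr c cp (h ▸ H.b2 hpr)) (H.b1 hpr) c.2.2
      pm cm (T.cl p (GU pG) r rU hpr) (cg.trans GU)
  have KU : K ⊆ pl B r G :=
    pla_sub_cl H PK T.cl b.2.1 d.2.1 hbd b.2.2 d.2.2 bh dh (bl'.trans ΦU) (dm.trans ΦU')
  obtain ⟨w, wp, wG, wK⟩ := spc_meet H T PG PK GU KU p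
  exact ⟨ray H wp.symm, mem_star.2 (PG.cl p pG w wG wp.symm),
    mem_star.2 (PK.cl p pK w wK wp.symm)⟩

theorem star_VG {A : Finset V} (hA : VG B A) {p : V} (hp : Veblen B p) (hpA : p ∈ A) :
    VG (vB B q p) (star B p A) := by
  have HQ := vB_LS H hp
  -- the points on the blocks of a closed set of the quotient
  have key : ∀ C : Finset (Ln B p), Cl (vB B q p) C →
      Cl B (insert p (C.biUnion fun b => b.1)) := by
    intro C hC
    have sub : ∀ b ∈ C, b.1 ⊆ insert p (C.biUnion fun b => b.1) := by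
      intro b hb x hx
      rw [mem_insert, mem_biUnion]
      exact Or.inr ⟨b, hb, hx⟩
    have one : ∀ x ∈ insert p (C.biUnion fun b => b.1), x ≠ p → ∃ b ∈ C, x ∈ b.1 := by
      intro x hx hxp
      rw [mem_insert, mem_biUnion] at hx
      exact hx.resolve_left hxp
    intro x hx y hy hxy
    by_cases hxp : x = p
    · obtain ⟨b, hb, hyb⟩ := one y hy (fun h => hxy (hxp.trans h.symm))
      rw [H.bl_eq hxy b.2.1 (hxp ▸ b.2.2) hyb]
      exact sub b hb
    by_cases hyp : y = p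
    · obtain ⟨b, hb, hxb⟩ := one x hx hxp
      rw [H.bl_eq hxy b.2.1 hxb (hyp ▸ b.2.2)]
      exact sub b hb
    obtain ⟨b, hb, hxb⟩ := one x hx hxp
    obtain ⟨c, hc, hyc⟩ := one y hy hyp
    by_cases hbc : b = c
    · subst hbc
      rw [H.bl_eq hxy b.2.1 hxb hyc]
      exact sub b hb
    · obtain ⟨S, P, pS, hS⟩ := mem_vB.1 (HQ.bB hbc)
      have h1 : b.1 ⊆ S := mem_star.1 (hS ▸ HQ.b1 hbc)
      have h2 : c.1 ⊆ S := mem_star.1 (hS ▸ HQ.b2 hbc)
      intro z hz
      have hzS := P.cl x (h1 hxb) y (h2 hyc) hxy hz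
      by_cases hzp : z = p
      · rw [hzp]; exact mem_insert_self _ _
      · have h3 : ray H (Ne.symm hzp) ∈ star B p S :=
          mem_star.2 (P.cl p pS z hzS (Ne.symm hzp))
        rw [hS] at h3
        exact sub _ (hC b hb c hc hbc h3) (H.b2 (Ne.symm hzp))
  refine ⟨?_, ?_⟩
  · intro b hb c hc hbc
    obtain ⟨S, P, pS, hS⟩ := mem_vB.1 (HQ.bB hbc)
    have h1 : b.1 ⊆ S := mem_star.1 (hS ▸ HQ.b1 hbc)
    have h2 : c.1 ⊆ S := mem_star.1 (hS ▸ HQ.b2 hbc)
    have hs := pla_sub_cl H P hA.cl b.2.1 c.2.1 (fun e => hbc (Subtype.ext e)) b.2.2 c.2.2 h1 h2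
      (mem_star.1 hb) (mem_star.1 hc)
    rw [← hS]
    intro d hd
    exact mem_star.2 ((mem_star.1 hd).trans hs)
  · intro C hC hcl hgen
    have hCA : insert p (C.biUnion fun b => b.1) ⊆ A := by
      intro x hx
      rw [mem_insert, mem_biUnion] at hx
      rcases hx with h | ⟨b, hb, hxb⟩
      · rw [h]; exact hpA
      · exact (mem_star.1 (hC hb)) hxb
    have e := hA.gen _ hCA (key C hcl) (by
      intro r hr hv
      rw [mem_insert, mem_biUnion]
      by_cases hrp : r = p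
      · exact Or.inl hrp
      · refine Or.inr ⟨ray H (Ne.symm hrp), hgen _ ?_ (vB_veblen H hv (Ne.symm hrp)),
          H.b2 (Ne.symm hrp)⟩
        exact mem_star.2 (hA.cl p hpA r hr (Ne.symm hrp)))
    refine Subset.antisymm hC ?_
    intro b hb
    obtain ⟨y, yb, yp⟩ := H.two_pts b.2.1 p
    have hy : y ∈ insert p (C.biUnion fun b => b.1) := by
      rw [e]; exact (mem_star.1 hb) yb
    rw [mem_insert, mem_biUnion] at hy
    obtain ⟨c, hc, yc⟩ := hy.resolve_left yp
    have : b = c := Subtype.ext (H.un yp b.2.1 c.2.1 yb b.2.2 yc c.2.2)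
    rw [this]
    exact hc

end

/-- many Veblen points generate a large subsystem -/
theorem exists_VG (H : LS B q) {T : Finset V} (hT : ∀ p ∈ T, Veblen B p) (k : ℕ)
    (hk : ∑ i ∈ range k, q ^ i < T.card) :
    ∃ A, VG B A ∧ A.card = ∑ i ∈ range (k + 1), q ^ i := by
  have step : ∀ l, l ≤ k → ∃ A, VG B A ∧ A.card = ∑ i ∈ range l, q ^ i := by
    intro l
    induction l with
    | zero => exact fun _ => ⟨∅, VG.empty, rfl⟩
    | succ l ih =>
      intro hl
      obtain ⟨A, hA, hc⟩ := ih (by omega)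
      have h1 : ∑ i ∈ range l, q ^ i ≤ ∑ i ∈ range k, q ^ i :=
        sum_le_sum_of_subset (by intro i; simp only [mem_range]; omega)
      obtain ⟨p, pT, pA⟩ : ∃ p ∈ T, p ∉ A := by
        by_contra hcon
        push Not at hcon
        have := card_le_card (show T ⊆ A from hcon)
        omega
      refine ⟨G4.cone B p A, hA.cone H (hT p pT) pA, ?_⟩
      rw [card_cone' H hA.cl pA, hc, sum_range_succ', pow_zero]
      simp only [pow_succ]
      rw [sum_mul]
  obtain ⟨A, hA, hc⟩ := step k le_rfl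
  obtain ⟨p, pT, pA⟩ : ∃ p ∈ T, p ∉ A := by
    by_contra hcon
    push Not at hcon
    have := card_le_card (show T ⊆ A from hcon)
    omega
  refine ⟨G4.cone B p A, hA.cone H (hT p pT) pA, ?_⟩
  rw [card_cone' H hA.cl pA, hc, sum_range_succ', pow_zero]
  simp only [pow_succ]
  rw [sum_mul]

/-- a subsystem generated by Veblen points determines a smaller Steiner system -/
theorem nec (k : ℕ) : ∀ {V : Type} [DecidableEq V] [Fintype V] {B : Finset (Finset V)} {q : ℕ}
    (_ : LS B q) (A : Finset V) (_ : VG B A) (_ : A.card = ∑ i ∈ range k, q ^ i),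
    ∃ (W : Type) (_ : DecidableEq W) (_ : Fintype W) (C : Finset (Finset W)), LS C q ∧
      Fintype.card V = q ^ k * Fintype.card W + ∑ i ∈ range k, q ^ i := by
  induction k with
  | zero =>
    intro V iD iF B q H A _ _
    exact ⟨V, iD, iF, B, H, by simp⟩
  | succ k ih =>
    intro V iD iF B q H A hA hcard
    have hq := H.hq
    obtain ⟨p, pA, hp, -⟩ := hA.out (empty_subset A) Cl.empty (by
      intro h
      rw [← h, card_empty, sum_range_succ'] at hcard
      simp at hcard)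
    have h1 := card_star H hA.cl pA
    rw [hcard, sum_range_succ', pow_zero] at h1
    simp only [pow_succ] at h1
    rw [← sum_mul] at h1
    have h2 : (star B p A).card = ∑ i ∈ range k, q ^ i :=
      Nat.eq_of_mul_eq_mul_right (show 0 < q by omega) (by omega)
    obtain ⟨W, i1, i2, C, HC, hW⟩ := ih (vB_LS H hp) (star B p A) (star_VG H hA hp pA) h2
    refine ⟨W, i1, i2, C, HC, ?_⟩
    have h3 := card_star H (A := univ) (fun x _ y _ _ => subset_univ _) (mem_univ p)
    have h4 : star B p (univ : Finset V) = univ := by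
      ext b; simp [mem_star]
    rw [h4, card_univ, card_univ, hW] at h3
    rw [h3, sum_range_succ', pow_zero]
    simp only [pow_succ]
    rw [← sum_mul]
    ring

end Pool.Agent.Helper19.G5
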