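import Mathlib
import Pool.Agent.Helper19.G5.Quo
import Pool.Agent.Helper19.A3.Out
import Pool.Agent.Helper19.A3.Hyp

set_option autoImplicit false
set_option linter.unusedSectionVars false

/-!
# Many affine points determine a smaller Steiner system
-/

namespace Pool.Agent.Helper19.G5

open Finset Pool.Agent.V11100.VB Pool.Agent.Helper19.VS Pool.Agent.Helper19.V3
  Pool.Agent.Helper19.G4 Pool.Agent.Helper19.A3

theorem geo (q r : ℕ) : q * ∑ i ∈ range r, (q + 1) ^ i + 1 = (q + 1) ^ r := by
  induction r with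
  | zero => simp
  | succ r ih =>
    rw [sum_range_succ, mul_add, pow_succ]
    nlinarith

section
variable {W : Type} [DecidableEq W] [Fintype W] {C : Finset (Finset W)} {k : ℕ}

theorem card_inter_hyp (H : LS C k) {Λ : Finset W} (hΛ : Hyp C Λ) {A : Finset W} (hA : Cl C A)
    {p : W} (hp : p ∈ A) (hpΛ : p ∉ Λ) : (A ∩ Λ).card = (star C p A).card := by
  have hne : ∀ y ∈ A ∩ Λ, p ≠ y := fun y hy e => hpΛ (e ▸ (mem_inter.1 hy).2)
  refine card_bij (fun y hy => ray H (hne y hy)) ?_ ?_ ?_
  · intro y hy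
    exact mem_star.2 (hA p hp y (mem_inter.1 hy).1 (hne y hy))
  · intro y hy y' hy' e
    have h1 : bl C p y = bl C p y' := congrArg Subtype.val e
    rcases hΛ _ (H.bB (hne y hy)) with h | ⟨x, hx, hxΛ, hu⟩
    · exact absurd (h (H.b1 (hne y hy))) hpΛ
    · exact (hu y (H.b2 (hne y hy)) (mem_inter.1 hy).2).trans
        (hu y' (h1 ▸ H.b2 (hne y' hy')) (mem_inter.1 hy').2).symm
  · intro b hb
    rcases hΛ _ b.2.1 with h | ⟨x, hx, hxΛ, -⟩
    · exact absurd (h b.2.2) hpΛ
    · have hxA : x ∈ A ∩ Λ := mem_inter.2 ⟨(mem_star.1 hb) hx, hxΛ⟩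
      exact ⟨x, hxA, ray_eq H (hne x hxA) hx⟩

theorem exists_VGH (H : LS C k) {Λ : Finset W} (hΛ : Hyp C Λ) {T : Finset W}
    (hT : ∀ p ∈ T, Veblen C p) (hTΛ : ∀ p ∈ T, p ∉ Λ) (r : ℕ) (hr : k ^ r < k * T.card) :
    ∃ A, VG C A ∧ A.card = ∑ i ∈ range (r + 1), k ^ i := by
  have hk := H.hq
  have step : ∀ l, l ≤ r + 1 → ∃ A, VG C A ∧ A.card = ∑ i ∈ range l, k ^ i ∧
      k * (A \ Λ).card ≤ k ^ l := by
    intro l
    induction l with
    | zero => exact fun _ => ⟨∅, VG.empty, rfl, by simp⟩
    | succ l ih =>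
      intro hl
      obtain ⟨A, hA, hc, hd⟩ := ih (by omega)
      obtain ⟨p, pT, pA⟩ : ∃ p ∈ T, p ∉ A := by
        by_contra hcon
        push Not at hcon
        have h1 : T ⊆ A \ Λ := fun p hp => mem_sdiff.2 ⟨hcon p hp, hTΛ p hp⟩
        have h2 := card_le_card h1
        have h3 : k * T.card ≤ k * (A \ Λ).card := Nat.mul_le_mul_left _ h2
        have h4 : k ^ l ≤ k ^ r := Nat.pow_le_pow_right (by omega) (by omega)
        omega
      have hV := hA.cone H (hT p pT) pA
      have hcc := card_cone' H hA.cl pA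
      have hp' : p ∈ G4.cone C p A := by rw [mem_cone H pA]; exact Or.inl rfl
      refine ⟨G4.cone C p A, hV, ?_, ?_⟩
      · rw [hcc, hc, sum_range_succ', pow_zero]
        simp only [pow_succ]
        rw [sum_mul]
      · have h1 := card_star H hV.cl hp'
        rw [hcc] at h1
        have h2 : A.card = (star C p (G4.cone C p A)).card :=
          Nat.eq_of_mul_eq_mul_right (show 0 < k by omega) (by omega)
        have h3 := card_inter_hyp H hΛ hV.cl hp' (hTΛ p pT)
        have h4 := card_sdiff_add_card_inter (G4.cone C p A) Λ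
        rw [h3, ← h2, hcc] at h4
        -- the difference of consecutive sums
        have h5 : A.card * k + 1 = k ^ l + A.card := by
          have e1 : A.card * k + 1 = ∑ i ∈ range (l + 1), k ^ i := by
            rw [sum_range_succ', pow_zero, hc, sum_mul]
            simp only [pow_succ]
          rw [e1, sum_range_succ, ← hc, add_comm]
        have h6 : (G4.cone C p A \ Λ).card = k ^ l := by omega
        rw [h6, pow_succ, mul_comm]
  obtain ⟨A, hA, hc, -⟩ := step (r + 1) le_rfl
  exact ⟨A, hA, hc⟩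

end

variable {V : Type} [DecidableEq V] [Fintype V] {B : Finset (Finset V)} {q : ℕ}

theorem comp_hyp {p : V} : Hyp (cB B q p)
    ((∅ : Finset V).disjSum (univ : Finset (Ln B p))) := by
  intro s hs
  rcases mem_cB.1 hs with ⟨m, hm, b, -, rfl⟩ | ⟨t, ht, rfl⟩
  · right
    refine ⟨.inr b, by simp, by simp, ?_⟩
    intro y hy hy'
    rcases y with y | y
    · simp at hy'
    · simp only [inr_mem_disjSum, mem_singleton] at hy
      rw [hy]
  · left
    exact disjSum_mono (Subset.refl _) (subset_univ _)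

theorem card_Ln (H : LS B q) (p : V) : Fintype.card V = Fintype.card (Ln B p) * q + 1 := by
  have h3 := card_star H (A := univ) (fun x _ y _ _ => subset_univ _) (mem_univ p)
  have h4 : star B p (univ : Finset V) = univ := by
    ext b; simp [mem_star]
  rw [h4, card_univ, card_univ] at h3
  exact h3

theorem aff_nec (H : LS B q) (hq : 4 ≤ q) {T : Finset V} (hT : ∀ p ∈ T, Apt B q p) (r : ℕ)
    (hr : (q + 1) ^ r < (q + 1) * T.card) :
    ∃ (W : Type) (_ : DecidableEq W) (_ : Fintype W) (D : Finset (Finset W)), LS D (q + 1) ∧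
      Fintype.card V = (q + 1) ^ r * (q * Fintype.card W + 1) := by
  classical
  obtain ⟨p, pT⟩ : T.Nonempty := by
    rw [nonempty_iff_ne_empty]
    rintro rfl
    simp at hr
  have hp := hT p pT
  have HC := cB_LS H hp
  obtain ⟨A, hA, hcA⟩ := exists_VGH HC (comp_hyp (p := p)) (T := T.image Sum.inl) (by
      intro w hw
      obtain ⟨y, hy, rfl⟩ := mem_image.1 hw
      by_cases hyp : p = y
      · subst hyp
        exact veblen_self H hp
      · exact veblen_other H hq hp (hT y hy) hyp) (by
      intro w hw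
      obtain ⟨y, hy, rfl⟩ := mem_image.1 hw
      simp) r (by
      rw [card_image_of_injective _ Sum.inl_injective]
      exact hr)
  obtain ⟨W, i1, i2, D, HD, hW⟩ := nec (r + 1) HC A hA hcA
  refine ⟨W, i1, i2, D, HD, ?_⟩
  rw [Fintype.card_sum] at hW
  have h1 := card_Ln H p
  have g1 := geo q r
  rw [sum_range_succ', pow_zero] at hW
  have h2 : ∑ i ∈ range r, (q + 1) ^ (i + 1) = (∑ i ∈ range r, (q + 1) ^ i) * (q + 1) := by
    rw [sum_mul]
    simp only [pow_succ]
  rw [h2] at hW
  set h := Fintype.card (Ln B p) with hh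
  set s := ∑ i ∈ range r, (q + 1) ^ i with hs
  set w := Fintype.card W with hw
  have h3 : h * (q + 1) = ((q + 1) ^ r * w + s) * (q + 1) := by
    have e1 : (q + 1) ^ (r + 1) * w = (q + 1) ^ r * w * (q + 1) := by ring
    rw [e1, h1] at hW
    nlinarith
  have h4 : h = (q + 1) ^ r * w + s := Nat.eq_of_mul_eq_mul_right (by omega) h3
  rw [h1, h4]
  nlinarith

end Pool.Agent.Helper19.G5
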