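import Mathlib
import Pool.Agent.Helper19.V3.PG
import Pool.Agent.Helper19.A3.Out

set_option autoImplicit false
set_option linter.unusedSectionVars false

/-!
# Extending a Steiner system by a projective space over a finite field
-/

namespace Pool.Agent.Helper19.G5

open Finset Pool.Agent.V11100.VB Pool.Agent.Helper19.VS Pool.Agent.Helper19.V3
  Pool.Agent.Helper19.A3 Module
open scoped LinearAlgebra.Projectivization

section
variable {K W M : Type} [Field K] [AddCommGroup W] [Module K W]

/-- three types of blocks -/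
inductive Bk (K W M : Type) [Field K] [AddCommGroup W] [Module K W] : Type
  | L1 (S : Submodule K W) : Bk K W M
  | L2 (d : M) (x : ℙ K W) (v : W) : Bk K W M
  | L3 (b : Finset M) (u w : W) : Bk K W M

/-- incidence -/
def On (c : Finset M → M → K × K) : Bk K W M → (ℙ K W ⊕ (M × W)) → Prop
  | .L1 S, .inl x => x.submodule ≤ S
  | .L1 _, .inr _ => False
  | .L2 _ x _, .inl y => y = x
  | .L2 d x v, .inr t => t.1 = d ∧ t.2 - v ∈ x.submodule
  | .L3 _ _ _, .inl _ => False
  | .L3 b u w, .inr t => t.1 ∈ b ∧ t.2 = (c b t.1).1 • u + (c b t.1).2 • w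

/-- the admissible parameters -/
def Ok (D : Finset (Finset M)) : Bk K W M → Prop
  | .L1 S => finrank K S = 2
  | .L2 _ _ _ => True
  | .L3 b _ _ => b ∈ D

/-- pairwise independent vectors for the points of a block -/
def Ind (D : Finset (Finset M)) (c : Finset M → M → K × K) : Prop :=
  ∀ b ∈ D, ∀ d ∈ b, ∀ d' ∈ b, d ≠ d' → (c b d).1 * (c b d').2 - (c b d).2 * (c b d').1 ≠ 0

theorem solve {α β α' β' : K} (h : α * β' - β * α' ≠ 0) (a a' : W) :
    ∃ u w : W, α • u + β • w = a ∧ α' • u + β' • w = a' := by
  refine ⟨(α * β' - β * α')⁻¹ • (β' • a - β • a'), (α * β' - β * α')⁻¹ • (α • a' - α' • a), ?_, ?_⟩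
  · have : α • (α * β' - β * α')⁻¹ • (β' • a - β • a') +
        β • (α * β' - β * α')⁻¹ • (α • a' - α' • a) =
        ((α * β' - β * α')⁻¹ * (α * β' - β * α')) • a := by module
    rw [this, inv_mul_cancel₀ h, one_smul]
  · have : α' • (α * β' - β * α')⁻¹ • (β' • a - β • a') +
        β' • (α * β' - β * α')⁻¹ • (α • a' - α' • a) =
        ((α * β' - β * α')⁻¹ * (α * β' - β * α')) • a' := by module
    rw [this, inv_mul_cancel₀ h, one_smul]

theorem solve_un {α β α' β' : K} (h : α * β' - β * α' ≠ 0) {u w u' w' : W}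
    (h1 : α • u + β • w = α • u' + β • w') (h2 : α' • u + β' • w = α' • u' + β' • w') :
    u = u' ∧ w = w' := by
  have e1 : (α * β' - β * α') • (u - u') = 0 := by
    have : (α * β' - β * α') • (u - u') = β' • ((α • u + β • w) - (α • u' + β • w')) -
        β • ((α' • u + β' • w) - (α' • u' + β' • w')) := by module
    rw [this, h1, h2]; simp
  have e2 : (α * β' - β * α') • (w - w') = 0 := by
    have : (α * β' - β * α') • (w - w') = α • ((α' • u + β' • w) - (α' • u' + β' • w')) -
        α' • ((α • u + β • w) - (α • u' + β • w')) := by module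
    rw [this, h1, h2]; simp
  rw [smul_eq_zero] at e1 e2
  exact ⟨sub_eq_zero.1 (e1.resolve_left h), sub_eq_zero.1 (e2.resolve_left h)⟩

theorem proj_eq [FiniteDimensional K W] {x y : ℙ K W} {v : W} (hv : v ≠ 0)
    (hx : v ∈ x.submodule) (hy : v ∈ y.submodule) : x = y := by
  have key : ∀ z : ℙ K W, v ∈ z.submodule → Submodule.span K {v} = z.submodule := by
    intro z hz
    apply Submodule.eq_of_le_of_finrank_eq
    · rw [Submodule.span_singleton_le_iff_mem]; exact hz
    · rw [finrank_span_singleton hv, z.finrank_submodule]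
  exact Projectivization.submodule_injective ((key x hx).symm.trans (key y hy))

theorem mem_mk {v : W} (hv : v ≠ 0) : v ∈ (Projectivization.mk K v hv).submodule := by
  rw [Projectivization.submodule_mk]
  exact Submodule.mem_span_singleton_self v

variable [DecidableEq M] [FiniteDimensional K W] {D : Finset (Finset M)} {q : ℕ}

theorem on_ex (HD : LS D q) {c : Finset M → M → K × K} (hc : Ind D c)
    (w w' : ℙ K W ⊕ (M × W)) (hw : w ≠ w') : ∃ k, Ok D k ∧ On c k w ∧ On c k w' := by
  classical
  rcases w with x | ⟨d, v⟩ <;> rcases w' with y | ⟨d', v'⟩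
  · have hxy : x ≠ y := fun e => hw (by rw [e])
    exact ⟨.L1 (x.submodule ⊔ y.submodule), rank_sup hxy,
      (le_sup_left : x.submodule ≤ x.submodule ⊔ y.submodule),
      (le_sup_right : y.submodule ≤ x.submodule ⊔ y.submodule)⟩
  · exact ⟨.L2 d' x v', trivial, rfl, rfl, by simp⟩
  · exact ⟨.L2 d y v, trivial, ⟨rfl, by simp⟩, rfl⟩
  · by_cases hd : d = d'
    · subst hd
      have hv : v' - v ≠ 0 := by
        intro h
        rw [sub_eq_zero] at h
        exact hw (by rw [h])
      exact ⟨.L2 d (Projectivization.mk K (v' - v) hv) v, trivial, ⟨rfl, by simp⟩, rfl,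
        mem_mk hv⟩
    · obtain ⟨u, w, h1, h2⟩ := solve (hc _ (HD.bB hd) d (HD.b1 hd) d' (HD.b2 hd) hd) v v'
      exact ⟨.L3 (bl D d d') u w, HD.bB hd, ⟨HD.b1 hd, h1.symm⟩, HD.b2 hd, h2.symm⟩

theorem on_un (HD : LS D q) {c : Finset M → M → K × K} (hc : Ind D c)
    {w w' : ℙ K W ⊕ (M × W)} (hw : w ≠ w') {k k' : Bk K W M} (hk : Ok D k) (hk' : Ok D k')
    (h1 : On c k w) (h2 : On c k w') (h3 : On c k' w) (h4 : On c k' w')
    (z : ℙ K W ⊕ (M × W)) : On c k z ↔ On c k' z := by
  classical
  -- two blocks of the second type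
  have coset : ∀ (d : M) (x : ℙ K W) (v v' : W), v' - v ∈ x.submodule →
      ∀ z, On c (.L2 d x v : Bk K W M) z ↔ On c (.L2 d x v') z := by
    intro d x v v' h z
    rcases z with y | t
    · exact Iff.rfl
    · simp only [On]
      refine and_congr_right fun _ => ⟨fun h' => ?_, fun h' => ?_⟩
      · have : t.2 - v' = (t.2 - v) - (v' - v) := by abel
        rw [this]
        exact Submodule.sub_mem _ h' h
      · have : t.2 - v = (t.2 - v') + (v' - v) := by abel
        rw [this]
        exact Submodule.add_mem _ h' h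
  have mixed : ∀ (x : ℙ K W) (t : M × W) (k k' : Bk K W M), On c k (.inl x) → On c k (.inr t) →
      On c k' (.inl x) → On c k' (.inr t) → ∀ z, On c k z ↔ On c k' z := by
    intro x t k k' h1 h2 h3 h4
    rcases k with S | ⟨d, y, v⟩ | ⟨b, u, w⟩
    · exact absurd h2 id
    · rcases k' with S' | ⟨d', y', v'⟩ | ⟨b', u', w'⟩
      · exact absurd h4 id
      · simp only [On] at h1 h2 h3 h4
        subst h1
        subst h3
        obtain ⟨e1, e2⟩ := h2
        obtain ⟨e3, e4⟩ := h4
        subst e1
        subst e3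
        apply coset
        have : v' - v = (t.2 - v) - (t.2 - v') := by abel
        rw [this]
        exact Submodule.sub_mem _ e2 e4
      · exact absurd h3 id
    · exact absurd h1 id
  rcases w with x | t <;> rcases w' with y | t'
  · have hxy : x ≠ y := fun e => hw (by rw [e])
    rcases k with S | ⟨d, y1, v⟩ | ⟨b, u, w⟩
    · rcases k' with S' | ⟨d', y', v'⟩ | ⟨b', u', w'⟩
      · simp only [On, Ok] at h1 h2 h3 h4 hk hk'
        rw [line_eq hxy hk h1 h2, line_eq hxy hk' h3 h4]
      · simp only [On] at h3 h4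
        exact absurd (h3.trans h4.symm) hxy
      · exact absurd h3 id
    · simp only [On] at h1 h2
      exact absurd (h1.trans h2.symm) hxy
    · exact absurd h1 id
  · exact mixed x t' k k' h1 h2 h3 h4 z
  · exact mixed y t k k' h2 h1 h4 h3 z
  · rcases k with S | ⟨d, y1, v⟩ | ⟨b, u, w⟩
    · exact absurd h1 id
    · rcases k' with S' | ⟨d', y', v'⟩ | ⟨b', u', w'⟩
      · exact absurd h3 id
      · simp only [On] at h1 h2 h3 h4
        obtain ⟨e1, e2⟩ := h1
        obtain ⟨e3, e4⟩ := h2
        obtain ⟨e5, e6⟩ := h3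
        obtain ⟨e7, e8⟩ := h4
        have ht : t.2 - t'.2 ≠ 0 := by
          intro h
          rw [sub_eq_zero] at h
          exact hw (by rw [Prod.ext (e1.trans e3.symm) h])
        have hy : y1 = y' := by
          apply proj_eq ht
          · have : t.2 - t'.2 = (t.2 - v) - (t'.2 - v) := by abel
            rw [this]
            exact Submodule.sub_mem _ e2 e4
          · have : t.2 - t'.2 = (t.2 - v') - (t'.2 - v') := by abel
            rw [this]
            exact Submodule.sub_mem _ e6 e8
        subst hy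
        subst e1
        subst e5
        apply coset
        have : v' - v = (t.2 - v) - (t.2 - v') := by abel
        rw [this]
        exact Submodule.sub_mem _ e2 e6
      · simp only [On, Ok] at h1 h2 h3 h4 hk'
        exfalso
        have hd : t.1 = t'.1 := h1.1.trans h2.1.symm
        apply hw
        have : t.2 = t'.2 := by rw [h3.2, h4.2, hd]
        rw [Prod.ext hd this]
    · rcases k' with S' | ⟨d', y', v'⟩ | ⟨b', u', w'⟩
      · exact absurd h3 id
      · simp only [On, Ok] at h1 h2 h3 h4 hk
        exfalso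
        have hd : t.1 = t'.1 := h3.1.trans h4.1.symm
        apply hw
        have : t.2 = t'.2 := by rw [h1.2, h2.2, hd]
        rw [Prod.ext hd this]
      · simp only [On, Ok] at h1 h2 h3 h4 hk hk'
        have hd : t.1 ≠ t'.1 := by
          intro hd
          apply hw
          have : t.2 = t'.2 := by rw [h1.2, h2.2, hd]
          rw [Prod.ext hd this]
        have hb : b = b' := HD.un hd hk hk' h1.1 h2.1 h3.1 h4.1
        subst hb
        obtain ⟨e1, e2⟩ := solve_un (hc b hk t.1 h1.1 t'.1 h2.1 hd) (h1.2.symm.trans h3.2)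
          (h2.2.symm.trans h4.2)
        rw [e1, e2]

end

end Pool.Agent.Helper19.G5
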