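import Mathlib
import Pool.Agent.Helper19.G5.Fld

set_option autoImplicit false
set_option linter.unusedSectionVars false

/-!
# The extended Steiner system and its Veblen points
-/

namespace Pool.Agent.Helper19.G5

open Finset Pool.Agent.V11100.VB Pool.Agent.Helper19.VS Pool.Agent.Helper19.V3
  Pool.Agent.Helper19.A3 Module
open scoped LinearAlgebra.Projectivization

section
variable {K W M : Type} [Field K] [AddCommGroup W] [Module K W] [DecidableEq M] [Fintype M]
  [Fintype K] [Fintype W] [Fintype (ℙ K W)] [DecidableEq (ℙ K W)] [DecidableEq W]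

open Classical in
/-- the blocks -/
noncomputable def fB (D : Finset (Finset M)) (c : Finset M → M → K × K) :
    Finset (Finset (ℙ K W ⊕ (M × W))) :=
  univ.filter fun s => ∃ k : Bk K W M, Ok D k ∧ ∀ w, w ∈ s ↔ On c k w

theorem mem_fB {D : Finset (Finset M)} {c : Finset M → M → K × K}
    {s : Finset (ℙ K W ⊕ (M × W))} :
    s ∈ fB D c ↔ ∃ k : Bk K W M, Ok D k ∧ ∀ w, w ∈ s ↔ On c k w := by
  simp [fB]

theorem card_submod (S : Submodule K W) : Nat.card S = Nat.card K ^ finrank K S := by
  rw [Nat.card_eq_fintype_card (α := K)]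
  have : Fintype S := Fintype.ofFinite _
  rw [Nat.card_eq_fintype_card]
  exact Module.card_eq_pow_finrank

theorem card_coset (S : Submodule K W) (v : W) (s : Finset W) (hs : ∀ w, w ∈ s ↔ w - v ∈ S) :
    s.card = Nat.card K ^ finrank K S := by
  rw [← card_submod S]
  have : Fintype S := Fintype.ofFinite _
  rw [Nat.card_eq_fintype_card, ← card_univ]
  refine card_bij (fun w hw => ⟨w - v, (hs w).1 hw⟩) (fun _ _ => mem_univ _) ?_ ?_
  · intro w _ w' _ h
    have := congrArg Subtype.val h
    simpa using this
  · intro t _
    refine ⟨t.1 + v, (hs _).2 (by simp), Subtype.ext (by simp)⟩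

theorem card_proj (S : Submodule K W) (s : Finset (ℙ K W)) (hs : ∀ x, x ∈ s ↔ x.submodule ≤ S) :
    s.card = ∑ i ∈ range (finrank K S), Nat.card K ^ i := by
  classical
  have hF2 : Finite (ℙ K S) := (Projectivization.finite_iff_of_finite K S).2 inferInstance
  have : Fintype (ℙ K S) := Fintype.ofFinite _
  have hinj : Function.Injective S.subtype := S.injective_subtype
  have e : s = univ.image (Projectivization.map S.subtype hinj) := by
    ext x
    rw [hs, mem_image]
    constructor
    · induction x using Projectivization.ind with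
      | h v hv =>
        intro h
        rw [Projectivization.submodule_mk, Submodule.span_singleton_le_iff_mem] at h
        exact ⟨Projectivization.mk K ⟨v, h⟩ (fun e => hv (congrArg Subtype.val e)), mem_univ _, rfl⟩
    · rintro ⟨y, -, rfl⟩
      induction y using Projectivization.ind with
      | h v hv =>
        rw [Projectivization.map_mk, Projectivization.submodule_mk,
          Submodule.span_singleton_le_iff_mem]
        exact v.2
  rw [e, card_image_of_injective _ (Projectivization.map_injective _ hinj), card_univ,
    ← Nat.card_eq_fintype_card, Projectivization.card_of_finrank K S rfl]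

theorem card_disj {α β : Type} [DecidableEq α] [DecidableEq β] (s : Finset (α ⊕ β))
    (s1 : Finset α) (s2 : Finset β) (h1 : ∀ a, .inl a ∈ s ↔ a ∈ s1)
    (h2 : ∀ b, .inr b ∈ s ↔ b ∈ s2) : s.card = s1.card + s2.card := by
  rw [← card_disjSum]
  congr 1
  ext w
  rcases w with a | b
  · rw [h1, inl_mem_disjSum]
  · rw [h2, inr_mem_disjSum]

variable {D : Finset (Finset M)} {q : ℕ}

theorem card_on (HD : LS D q) (hK : Fintype.card K = q) {c : Finset M → M → K × K}
    {k : Bk K W M} (hk : Ok D k) {s : Finset (ℙ K W ⊕ (M × W))} (hs : ∀ w, w ∈ s ↔ On c k w) :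
    s.card = q + 1 := by
  classical
  have hK' : Nat.card K = q := by rw [Nat.card_eq_fintype_card, hK]
  rcases k with S | ⟨d, x, v⟩ | ⟨b, u, w⟩
  · simp only [Ok] at hk
    rw [card_disj s (univ.filter fun x => x.submodule ≤ S) ∅ (fun a => by rw [hs]; simp [On])
      (fun b => by rw [hs]; simp [On]), card_empty, add_zero,
      card_line (S := S) hk (fun x => by simp), hK']
  · rw [card_disj s {x} ((univ.filter fun w => w - v ∈ x.submodule).image fun w => (d, w))
      (fun a => by rw [hs]; simp [On]) (fun b => by
        rw [hs, mem_image]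
        simp only [On, mem_filter, mem_univ, true_and]
        constructor
        · rintro ⟨h1, h2⟩
          exact ⟨b.2, h2, Prod.ext h1.symm rfl⟩
        · rintro ⟨w, h, rfl⟩
          exact ⟨rfl, h⟩), card_singleton, card_image_of_injective _ (fun w w' h => by
            simpa using h), card_coset x.submodule v _ (fun w => by simp), x.finrank_submodule,
      hK', pow_one, add_comm]
  · simp only [Ok] at hk
    rw [card_disj s ∅ (b.image fun d => (d, (c b d).1 • u + (c b d).2 • w))
      (fun a => by rw [hs]; simp [On]) (fun t => by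
        rw [hs, mem_image]
        simp only [On]
        constructor
        · rintro ⟨h1, h2⟩
          exact ⟨t.1, h1, Prod.ext rfl h2.symm⟩
        · rintro ⟨d, h, rfl⟩
          exact ⟨h, rfl⟩), card_empty, zero_add, card_image_of_injective _ (fun d d' h => by
            simp only [Prod.mk.injEq] at h; exact h.1), HD.size b hk]

theorem fB_LS (HD : LS D q) (hK : Fintype.card K = q) {c : Finset M → M → K × K}
    (hc : Ind D c) : LS (fB (W := W) D c) q := by
  classical
  refine mkLS HD.hq ?_ ?_ ?_
  · intro s hs
    obtain ⟨k, hk, h⟩ := mem_fB.1 hs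
    exact card_on HD hK hk h
  · intro w w' hw
    obtain ⟨k, hk, h1, h2⟩ := on_ex HD hc w w' hw
    exact ⟨univ.filter (On c k), mem_fB.2 ⟨k, hk, fun w => by simp⟩, by simpa using h1,
      by simpa using h2⟩
  · intro w w' hw s hs s' hs' h1 h2 h3 h4
    obtain ⟨k, hk, h⟩ := mem_fB.1 hs
    obtain ⟨k', hk', h'⟩ := mem_fB.1 hs'
    ext z
    rw [h, h']
    exact on_un HD hc hw hk hk' ((h _).1 h1) ((h _).1 h2) ((h' _).1 h3) ((h' _).1 h4) z


end

end Pool.Agent.Helper19.G5
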