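import Mathlib
import Pool.Agent.Helper19.V3.Two
import Pool.Agent.Helper19.G5.FldSys

set_option autoImplicit false
set_option linter.unusedSectionVars false

/-!
# Extending a Steiner system by one or two Veblen points with an arbitrary projective plane
-/

namespace Pool.Agent.Helper19.G5

open Finset Pool.Agent.V11100.VB Pool.Agent.Helper19.VS Pool.Agent.Helper19.V3
  Pool.Agent.Helper19.A3

/-- an injection of every block into the columns -/
def Inj {M E : Type} (D : Finset (Finset M)) (σ : Finset M → M → E) : Prop :=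
  ∀ b ∈ D, ∀ d ∈ b, ∀ d' ∈ b, d ≠ d' → σ b d ≠ σ b d'

theorem exists_inj {M E : Type} [DecidableEq M] [Fintype E] [Nonempty E] {D : Finset (Finset M)}
    {q : ℕ} (HD : LS D q) (hE : Fintype.card E = q + 1) : ∃ σ : Finset M → M → E, Inj D σ := by
  classical
  have key : ∀ b ∈ D, ∃ f : M → E, ∀ d ∈ b, ∀ d' ∈ b, d ≠ d' → f d ≠ f d' := by
    intro b hb
    have e : Fintype.card b = Fintype.card E := by
      rw [Fintype.card_coe, HD.size b hb, hE]
    let σ : b ≃ E := Fintype.equivOfCardEq e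
    obtain ⟨e0⟩ := ‹Nonempty E›
    refine ⟨fun d => if h : d ∈ b then σ ⟨d, h⟩ else e0, ?_⟩
    intro d hd d' hd' hne
    simp only [dif_pos hd, dif_pos hd']
    intro h
    exact hne (congrArg Subtype.val (σ.injective h))
  choose! f hf using key
  exact ⟨f, hf⟩

theorem Inj.surj {M E : Type} [DecidableEq M] [Fintype E] {D : Finset (Finset M)} {q : ℕ}
    (HD : LS D q) (hE : Fintype.card E = q + 1) {σ : Finset M → M → E} (hσ : Inj D σ)
    {b : Finset M} (hb : b ∈ D) (e : E) : ∃ d ∈ b, σ b d = e := by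
  classical
  have h : b.image (σ b) = univ := by
    rw [← card_eq_iff_eq_univ, card_image_of_injOn, HD.size b hb, hE]
    intro d hd d' hd' h
    by_contra hne
    exact hσ b hb d hd d' hd' hne h
  have h1 : e ∈ b.image (σ b) := by rw [h]; exact mem_univ e
  exact mem_image.1 h1

/-! ### one Veblen point -/

section
variable {M G E I : Type}

/-- the blocks of the cone -/
inductive Bc (M G : Type) : Type
  | L2 (d : M) : Bc M G
  | L3 (b : Finset M) (g : G) : Bc M G

/-- incidence -/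
def On1 (σ : Finset M → M → E) (γ : G → E → I) : Bc M G → (Unit ⊕ (M × I)) → Prop
  | .L2 _, .inl _ => True
  | .L2 d, .inr t => t.1 = d
  | .L3 _ _, .inl _ => False
  | .L3 b g, .inr t => t.1 ∈ b ∧ t.2 = γ g (σ b t.1)

/-- admissible -/
def Ok1 (D : Finset (Finset M)) : Bc M G → Prop
  | .L2 _ => True
  | .L3 b _ => b ∈ D

variable [DecidableEq M] {D : Finset (Finset M)} {q : ℕ} {σ : Finset M → M → E} {γ : G → E → I}

theorem on1_ex (HD : LS D q) (O : OA G E I γ) (hσ : Inj D σ) (w w' : Unit ⊕ (M × I))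
    (hw : w ≠ w') : ∃ k : Bc M G, Ok1 D k ∧ On1 σ γ k w ∧ On1 σ γ k w' := by
  rcases w with x | t <;> rcases w' with y | t'
  · exact absurd rfl hw
  · exact ⟨.L2 t'.1, trivial, trivial, rfl⟩
  · exact ⟨.L2 t.1, trivial, rfl, trivial⟩
  · by_cases hd : t.1 = t'.1
    · exact ⟨.L2 t.1, trivial, rfl, hd.symm⟩
    · obtain ⟨g, h1, h2⟩ := O.ex _ _ (hσ _ (HD.bB hd) _ (HD.b1 hd) _ (HD.b2 hd) hd) t.2 t'.2
      exact ⟨.L3 (bl D t.1 t'.1) g, HD.bB hd, ⟨HD.b1 hd, h1.symm⟩, HD.b2 hd, h2.symm⟩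

theorem on1_un (HD : LS D q) (O : OA G E I γ) (hσ : Inj D σ) {w w' : Unit ⊕ (M × I)}
    (hw : w ≠ w') {k k' : Bc M G} (hk : Ok1 D k) (hk' : Ok1 D k') (h1 : On1 σ γ k w)
    (h2 : On1 σ γ k w') (h3 : On1 σ γ k' w) (h4 : On1 σ γ k' w') : k = k' := by
  rcases w with x | t <;> rcases w' with y | t' <;> rcases k with d | ⟨b, g⟩ <;>
    rcases k' with d' | ⟨b', g'⟩ <;> simp only [On1] at h1 h2 h3 h4
  · exact absurd rfl hw
  · rw [← h2, ← h4]
  · rw [← h1, ← h3]
  · rw [← h1, ← h3]
  · exfalso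
    have hd : t.1 = t'.1 := h1.trans h2.symm
    exact hw (by rw [Prod.ext hd (by rw [h3.2, h4.2, hd])])
  · exfalso
    have hd : t.1 = t'.1 := h3.trans h4.symm
    exact hw (by rw [Prod.ext hd (by rw [h1.2, h2.2, hd])])
  · simp only [Ok1] at hk hk'
    have hd : t.1 ≠ t'.1 := fun hd => hw (by rw [Prod.ext hd (by rw [h1.2, h2.2, hd])])
    have hb : b = b' := HD.un hd hk hk' h1.1 h2.1 h3.1 h4.1
    subst hb
    rw [O.un _ _ (hσ b hk _ h1.1 _ h2.1 hd) g g' (h1.2.symm.trans h3.2) (h2.2.symm.trans h4.2)]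

variable [Fintype M] [Fintype G] [Fintype E] [Fintype I] [DecidableEq I]

open Classical in
/-- the cone over `D` -/
noncomputable def cone1 (D : Finset (Finset M)) (σ : Finset M → M → E) (γ : G → E → I) :
    Finset (Finset (Unit ⊕ (M × I))) :=
  univ.filter fun s => ∃ k : Bc M G, Ok1 D k ∧ ∀ w, w ∈ s ↔ On1 σ γ k w

theorem mem_cone1 {s : Finset (Unit ⊕ (M × I))} :
    s ∈ cone1 D σ γ ↔ ∃ k : Bc M G, Ok1 D k ∧ ∀ w, w ∈ s ↔ On1 σ γ k w := by
  simp [cone1]

theorem cone1_LS (HD : LS D q) (O : OA G E I γ) (hσ : Inj D σ) (hI : Fintype.card I = q) :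
    LS (cone1 D σ γ) q := by
  classical
  refine mkLS HD.hq ?_ ?_ ?_
  · intro s hs
    obtain ⟨k, hk, h⟩ := mem_cone1.1 hs
    rcases k with d | ⟨b, g⟩
    · rw [card_disj s univ (univ.image fun i => (d, i)) (fun a => by rw [h]; simp [On1])
        (fun t => by
          rw [h, mem_image]
          simp only [On1, mem_univ, true_and]
          exact ⟨fun h => ⟨t.2, Prod.ext h.symm rfl⟩, fun ⟨i, h⟩ => by rw [← h]⟩),
        card_image_of_injective _ (fun i j h => by simpa using h), card_univ, card_univ, hI]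
      simp [add_comm]
    · rw [card_disj s ∅ (b.image fun d => (d, γ g (σ b d))) (fun a => by rw [h]; simp [On1])
        (fun t => by
          rw [h, mem_image]
          simp only [On1]
          constructor
          · rintro ⟨h1, h2⟩
            exact ⟨t.1, h1, Prod.ext rfl h2.symm⟩
          · rintro ⟨d, h, rfl⟩
            exact ⟨h, rfl⟩), card_empty, zero_add, card_image_of_injective _ (fun d d' h => by
            simp only [Prod.mk.injEq] at h; exact h.1), HD.size b hk]
  · intro w w' hw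
    obtain ⟨k, hk, h1, h2⟩ := on1_ex HD O hσ w w' hw
    exact ⟨univ.filter (On1 σ γ k), mem_cone1.2 ⟨k, hk, fun w => by simp⟩, by simpa using h1,
      by simpa using h2⟩
  · intro w w' hw s hs s' hs' h1 h2 h3 h4
    obtain ⟨k, hk, h⟩ := mem_cone1.1 hs
    obtain ⟨k', hk', h'⟩ := mem_cone1.1 hs'
    have e : k = k' := on1_un HD O hσ hw hk hk' ((h _).1 h1) ((h _).1 h2) ((h' _).1 h3)
      ((h' _).1 h4)
    subst e
    ext z
    rw [h, h']

theorem cone1_veblen (HD : LS D q) (O : OA G E I γ) (hσ : Inj D σ) (hI : Fintype.card I = q) :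
    Veblen (cone1 D σ γ) (.inl ()) := by
  classical
  have HB := cone1_LS HD O hσ hI
  refine comp_veblen HB ?_
  intro l hl m hm hlm pl' pm
  obtain ⟨k, hk, hl'⟩ := mem_cone1.1 hl
  obtain ⟨k', hk', hm'⟩ := mem_cone1.1 hm
  have pk := (hl' _).1 pl'
  have pk' := (hm' _).1 pm
  rcases k with d | ⟨b, g⟩
  swap
  · exact absurd pk id
  rcases k' with d' | ⟨b, g⟩
  swap
  · exact absurd pk' id
  have hd : d ≠ d' := by
    rintro rfl
    apply hlm
    ext z
    rw [hl', hm']
  set b := bl D d d' with hb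
  have hbD : b ∈ D := HD.bB hd
  let S : Finset (Unit ⊕ (M × I)) := (univ : Finset Unit).disjSum (b ×ˢ univ)
  have i1 : ∀ u : Unit, (.inl u : Unit ⊕ (M × I)) ∈ S := by intro u; simp [S]
  have i2 : ∀ t : M × I, (.inr t : Unit ⊕ (M × I)) ∈ S ↔ t.1 ∈ b := by intro t; simp [S]
  refine ⟨S, ⟨?_, ?_⟩, ?_, ?_⟩
  · simp only [S, card_disjSum, card_univ, Fintype.card_unit, card_product, HD.size b hbD, hI]
    ring
  · intro w hw w' hw' hne
    obtain ⟨k, hk, h1, h2⟩ := on1_ex HD O hσ w w' hne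
    rw [HB.bl_eq hne (b := univ.filter (On1 σ γ k)) (mem_cone1.2 ⟨k, hk, fun w => by simp⟩)
      (by simpa using h1) (by simpa using h2)]
    intro z hz
    have hz' : On1 σ γ k z := by simpa using hz
    rcases z with z | z
    · exact i1 z
    rw [i2]
    rcases k with e | ⟨b', g⟩
    · have e1 : z.1 = e := hz'
      rcases w with x | t
      · rcases w' with y | t'
        · exact absurd rfl hne
        · have e2 : t'.1 = e := h2
          rw [e1, ← e2]
          exact (i2 _).1 hw'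
      · have e2 : t.1 = e := h1
        rw [e1, ← e2]
        exact (i2 _).1 hw
    · rcases w with x | t
      · exact absurd h1 id
      rcases w' with y | t'
      · exact absurd h2 id
      have hbD' : b' ∈ D := hk
      have htt : t.1 ≠ t'.1 := by
        intro h
        have h1' : t.1 ∈ b' ∧ t.2 = γ g (σ b' t.1) := h1
        have h2' : t'.1 ∈ b' ∧ t'.2 = γ g (σ b' t'.1) := h2
        exact hne (by rw [Prod.ext h (by rw [h1'.2, h2'.2, h])])
      have e : b' = b := HD.un htt hbD' hbD h1.1 h2.1 ((i2 _).1 hw) ((i2 _).1 hw')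
      rw [← e]
      exact hz'.1
  · intro z hz
    rw [hl'] at hz
    rcases z with z | z
    · exact i1 z
    · have : z.1 = d := hz
      rw [i2, this]
      exact HD.b1 hd
  · intro z hz
    rw [hm'] at hz
    rcases z with z | z
    · exact i1 z
    · have : z.1 = d' := hz
      rw [i2, this]
      exact HD.b2 hd

end

/-! ### two Veblen points -/

section
variable {M G E I : Type}

/-- the blocks of the double cone -/
inductive Bd (M G E I : Type) : Type
  | inf : Bd M G E I
  | ver (d : M) (z : E) (i : I) : Bd M G E I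
  | tra (b : Finset M) (g f : G) : Bd M G E I

/-- incidence -/
def On2 (σ : Finset M → M → E) (γ : G → E → I) (e1 e2 : E) : Bd M G E I → (E ⊕ (M × G)) → Prop
  | .inf, .inl _ => True
  | .inf, .inr _ => False
  | .ver _ z _, .inl t => t = z
  | .ver d z i, .inr t => t.1 = d ∧ γ t.2 z = i
  | .tra _ _ _, .inl _ => False
  | .tra b g f, .inr t => t.1 ∈ b ∧ γ t.2 e1 = γ g (σ b t.1) ∧ γ t.2 e2 = γ f (σ b t.1)

/-- admissible -/
def Ok2 (D : Finset (Finset M)) : Bd M G E I → Prop
  | .inf => True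
  | .ver _ _ _ => True
  | .tra b _ _ => b ∈ D

variable [DecidableEq M] {D : Finset (Finset M)} {q : ℕ} {σ : Finset M → M → E} {γ : G → E → I}
  {e1 e2 : E}

theorem on2_ex (HD : LS D q) (O : OA G E I γ) (hσ : Inj D σ) (w w' : E ⊕ (M × G))
    (hw : w ≠ w') : ∃ k : Bd M G E I, Ok2 D k ∧ On2 σ γ e1 e2 k w ∧ On2 σ γ e1 e2 k w' := by
  rcases w with z | ⟨d, h⟩ <;> rcases w' with z' | ⟨d', h'⟩
  · exact ⟨.inf, trivial, trivial, trivial⟩
  · exact ⟨.ver d' z (γ h' z), trivial, rfl, rfl, rfl⟩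
  · exact ⟨.ver d z' (γ h z'), trivial, ⟨rfl, rfl⟩, rfl⟩
  · by_cases hd : d = d'
    · subst hd
      obtain ⟨z, hz⟩ := O.agree h h'
      exact ⟨.ver d z (γ h z), trivial, ⟨rfl, rfl⟩, rfl, hz.symm⟩
    · have hs := hσ _ (HD.bB hd) _ (HD.b1 hd) _ (HD.b2 hd) hd
      obtain ⟨g, hg, hg'⟩ := O.ex _ _ hs (γ h e1) (γ h' e1)
      obtain ⟨f, hf, hf'⟩ := O.ex _ _ hs (γ h e2) (γ h' e2)
      exact ⟨.tra (bl D d d') g f, HD.bB hd, ⟨HD.b1 hd, hg.symm, hf.symm⟩, HD.b2 hd, hg'.symm,
        hf'.symm⟩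

theorem on2_un (HD : LS D q) (O : OA G E I γ) (hσ : Inj D σ) (h12 : e1 ≠ e2)
    {w w' : E ⊕ (M × G)} (hw : w ≠ w') {k k' : Bd M G E I} (hk : Ok2 D k) (hk' : Ok2 D k')
    (h1 : On2 σ γ e1 e2 k w) (h2 : On2 σ γ e1 e2 k w') (h3 : On2 σ γ e1 e2 k' w)
    (h4 : On2 σ γ e1 e2 k' w') : k = k' := by
  rcases k with _ | ⟨e, z, i⟩ | ⟨b, g, f⟩ <;> rcases k' with _ | ⟨e', z', i'⟩ | ⟨b', g', f'⟩ <;>
    rcases w with t | ⟨a, d⟩ <;> rcases w' with t' | ⟨a', d'⟩ <;>
    simp only [On2] at h1 h2 h3 h4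
  · rfl
  · exact absurd (by rw [h3, h4]) hw
  · exact absurd (by rw [h1, h2]) hw
  · exact absurd (by rw [h1, h2]) hw
  · obtain ⟨r1, r2⟩ := h2
    obtain ⟨r3, r4⟩ := h4
    subst h1; subst h3; subst r1; subst r2; subst r3; subst r4; rfl
  · obtain ⟨r1, r2⟩ := h1
    obtain ⟨r3, r4⟩ := h3
    subst h2; subst h4; subst r1; subst r2; subst r3; subst r4; rfl
  · obtain ⟨r1, r2⟩ := h1
    obtain ⟨r3, r4⟩ := h2
    obtain ⟨r5, r6⟩ := h3
    obtain ⟨r7, r8⟩ := h4
    subst r1; subst r3; subst r5; subst r2; subst r6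
    by_cases hz : z = z'
    · subst hz; rfl
    · exact absurd (by rw [O.un z z' hz d d' r4.symm r8.symm]) hw
  · obtain ⟨r1, r2⟩ := h1
    obtain ⟨r3, r4⟩ := h2
    obtain ⟨-, r5, r6⟩ := h3
    obtain ⟨-, r7, r8⟩ := h4
    subst r1; subst r3
    exact absurd (by rw [O.un e1 e2 h12 d d' (r5.trans r7.symm) (r6.trans r8.symm)]) hw
  · obtain ⟨r1, r2⟩ := h3
    obtain ⟨r3, r4⟩ := h4
    obtain ⟨-, r5, r6⟩ := h1
    obtain ⟨-, r7, r8⟩ := h2
    subst r1; subst r3
    exact absurd (by rw [O.un e1 e2 h12 d d' (r5.trans r7.symm) (r6.trans r8.symm)]) hw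
  · obtain ⟨s1, r1, r2⟩ := h1
    obtain ⟨s2, r3, r4⟩ := h2
    obtain ⟨s3, r5, r6⟩ := h3
    obtain ⟨s4, r7, r8⟩ := h4
    by_cases ha : a = a'
    · subst ha
      exact absurd (by rw [O.un e1 e2 h12 d d' (r1.trans r3.symm) (r2.trans r4.symm)]) hw
    · have hb : b = b' := HD.un ha hk hk' s1 s2 s3 s4
      subst hb
      have hs := hσ b hk a s1 a' s2 ha
      rw [O.un _ _ hs g g' (r1.symm.trans r5) (r3.symm.trans r7),
        O.un _ _ hs f f' (r2.symm.trans r6) (r4.symm.trans r8)]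

variable [Fintype M] [Fintype G] [Fintype E] [Fintype I] [DecidableEq G] [DecidableEq E]
  [DecidableEq I]

open Classical in
/-- the double cone over `D` -/
noncomputable def cone2 (D : Finset (Finset M)) (σ : Finset M → M → E) (γ : G → E → I)
    (e1 e2 : E) : Finset (Finset (E ⊕ (M × G))) :=
  univ.filter fun s => ∃ k : Bd M G E I, Ok2 D k ∧ ∀ w, w ∈ s ↔ On2 σ γ e1 e2 k w

theorem mem_cone2 {s : Finset (E ⊕ (M × G))} :
    s ∈ cone2 D σ γ e1 e2 ↔ ∃ k : Bd M G E I, Ok2 D k ∧ ∀ w, w ∈ s ↔ On2 σ γ e1 e2 k w := by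
  simp [cone2]

theorem cone2_LS (HD : LS D q) (O : OA G E I γ) (hσ : Inj D σ) (h12 : e1 ≠ e2)
    (hE : Fintype.card E = q + 1) (hI : Fintype.card I = q) : LS (cone2 D σ γ e1 e2) q := by
  classical
  refine mkLS HD.hq ?_ ?_ ?_
  · intro s hs
    obtain ⟨k, hk, h⟩ := mem_cone2.1 hs
    rcases k with _ | ⟨d, z, i⟩ | ⟨b, g, f⟩
    · rw [card_disj s univ ∅ (fun a => by rw [h]; simp [On2]) (fun a => by rw [h]; simp [On2]),
        card_univ, hE, card_empty]
    · have hz : ∃ z', z ≠ z' := by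
        by_cases h : z = e1
        · exact ⟨e2, h ▸ h12⟩
        · exact ⟨e1, h⟩
      obtain ⟨z', hz⟩ := hz
      rw [card_disj s {z} ((univ.filter fun h => γ h z = i).image fun h => (d, h))
        (fun a => by rw [h]; simp [On2]) (fun t => by
          rw [h, mem_image]
          simp only [On2, mem_filter, mem_univ, true_and]
          constructor
          · rintro ⟨h1, h2⟩
            exact ⟨t.2, h2, Prod.ext h1.symm rfl⟩
          · rintro ⟨h, h1, rfl⟩
            exact ⟨rfl, h1⟩), card_singleton,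
        card_image_of_injective _ (fun i j h => by simpa using h), card_row O hz i, hI, add_comm]
    · have hex : ∀ d : M, ∃ h : G, γ h e1 = γ g (σ b d) ∧ γ h e2 = γ f (σ b d) := fun d =>
        O.ex e1 e2 h12 _ _
      choose r hr1 hr2 using hex
      rw [card_disj s ∅ (b.image fun d => (d, r d)) (fun a => by rw [h]; simp [On2])
        (fun t => by
          rw [h, mem_image]
          simp only [On2]
          constructor
          · rintro ⟨h1, h2, h3⟩
            exact ⟨t.1, h1, Prod.ext rfl (O.un e1 e2 h12 _ _ ((hr1 _).trans h2.symm)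
              ((hr2 _).trans h3.symm))⟩
          · rintro ⟨d, h, rfl⟩
            exact ⟨h, hr1 d, hr2 d⟩), card_empty, zero_add,
        card_image_of_injective _ (fun d d' h => by
            simp only [Prod.mk.injEq] at h; exact h.1), HD.size b hk]
  · intro w w' hw
    obtain ⟨k, hk, h1, h2⟩ := on2_ex (e1 := e1) (e2 := e2) HD O hσ w w' hw
    exact ⟨univ.filter (On2 σ γ e1 e2 k), mem_cone2.2 ⟨k, hk, fun w => by simp⟩,
      by simpa using h1, by simpa using h2⟩
  · intro w w' hw s hs s' hs' h1 h2 h3 h4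
    obtain ⟨k, hk, h⟩ := mem_cone2.1 hs
    obtain ⟨k', hk', h'⟩ := mem_cone2.1 hs'
    have e : k = k' := on2_un HD O hσ h12 hw hk hk' ((h _).1 h1) ((h _).1 h2) ((h' _).1 h3)
      ((h' _).1 h4)
    subst e
    ext z
    rw [h, h']

theorem pla_of2 (HB : LS (cone2 D σ γ e1 e2) q) {S : Finset (E ⊕ (M × G))}
    (hcard : S.card = (q + 1) * q + 1)
    (hS : ∀ w ∈ S, ∀ w' ∈ S, w ≠ w' → ∃ k : Bd M G E I, Ok2 D k ∧ On2 σ γ e1 e2 k w ∧
      On2 σ γ e1 e2 k w' ∧ ∀ z, On2 σ γ e1 e2 k z → z ∈ S) : Pla (cone2 D σ γ e1 e2) q S := by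
  classical
  refine ⟨hcard, fun w hw w' hw' hne => ?_⟩
  obtain ⟨k, hk, h1, h2, h3⟩ := hS w hw w' hw' hne
  rw [HB.bl_eq hne (b := univ.filter (On2 σ γ e1 e2 k)) (mem_cone2.2 ⟨k, hk, fun w => by simp⟩)
    (by simpa using h1) (by simpa using h2)]
  intro z hz
  exact h3 z (by simpa using hz)

theorem cone2_veblen (HD : LS D q) (O : OA G E I γ) (hσ : Inj D σ) (h12 : e1 ≠ e2)
    (hE : Fintype.card E = q + 1) (hI : Fintype.card I = q) :
    Veblen (cone2 D σ γ e1 e2) (.inl e1) := by
  classical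
  have HB := cone2_LS HD O hσ h12 hE hI
  -- the planes of the fibres
  have fib : ∀ d : M, ∃ S, Pla (cone2 D σ γ e1 e2) q S ∧ (∀ e : E, .inl e ∈ S) ∧
      ∀ t : M × G, t.1 = d → .inr t ∈ S := by
    intro d
    let S : Finset (E ⊕ (M × G)) := (univ : Finset E).disjSum (({d} : Finset M) ×ˢ univ)
    have i1 : ∀ u : E, (.inl u : E ⊕ (M × G)) ∈ S := by intro u; simp [S]
    have i2 : ∀ t : M × G, (.inr t : E ⊕ (M × G)) ∈ S ↔ t.1 = d := by
      intro t
      simp only [S, inr_mem_disjSum, mem_product, mem_singleton, mem_univ, and_true]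
    refine ⟨S, pla_of2 HB ?_ ?_, i1, fun t => (i2 t).2⟩
    · simp only [S, card_disjSum, card_univ, hE, card_product, card_singleton, card_G O h12, hI]
      ring
    · intro w hw w' hw' hne
      rcases w with z | t <;> rcases w' with z' | t'
      · refine ⟨.inf, trivial, trivial, trivial, ?_⟩
        intro z hz
        rcases z with z | z
        · exact i1 z
        · exact absurd hz id
      · refine ⟨.ver t'.1 z (γ t'.2 z), trivial, rfl, ⟨rfl, rfl⟩, ?_⟩
        intro u hu
        rcases u with u | u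
        · exact i1 u
        · exact (i2 _).2 (hu.1.trans ((i2 _).1 hw'))
      · refine ⟨.ver t.1 z' (γ t.2 z'), trivial, ⟨rfl, rfl⟩, rfl, ?_⟩
        intro u hu
        rcases u with u | u
        · exact i1 u
        · exact (i2 _).2 (hu.1.trans ((i2 _).1 hw))
      · rw [i2] at hw hw'
        obtain ⟨z, hz⟩ := O.agree t.2 t'.2
        refine ⟨.ver d z (γ t.2 z), trivial, ⟨hw, rfl⟩, ⟨hw', hz.symm⟩, ?_⟩
        intro u hu
        rcases u with u | u
        · exact i1 u
        · exact (i2 _).2 hu.1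
  refine comp_veblen HB ?_
  intro l hl m hm hlm pl' pm
  obtain ⟨k, hk, hl'⟩ := mem_cone2.1 hl
  obtain ⟨k', hk', hm'⟩ := mem_cone2.1 hm
  have pk := (hl' _).1 pl'
  have pk' := (hm' _).1 pm
  have inf_sub : ∀ {S : Finset (E ⊕ (M × G))}, (∀ e : E, .inl e ∈ S) →
      ∀ z, On2 σ γ e1 e2 (.inf : Bd M G E I) z → z ∈ S := by
    intro S hS z hz
    rcases z with z | z
    · exact hS z
    · exact absurd hz id
  have ver_sub : ∀ {S : Finset (E ⊕ (M × G))} (d : M) (z : E) (i : I), (∀ e : E, .inl e ∈ S) →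
      (∀ t : M × G, t.1 = d → .inr t ∈ S) →
      ∀ w, On2 σ γ e1 e2 (.ver d z i : Bd M G E I) w → w ∈ S := by
    intro S d z i hS hS' w hw
    rcases w with w | w
    · exact hS w
    · exact hS' w hw.1
  rcases k with _ | ⟨d, z, i⟩ | ⟨b, g, f⟩
  · rcases k' with _ | ⟨d, z, i⟩ | ⟨b, g, f⟩
    · exfalso
      apply hlm
      ext z
      rw [hl', hm']
    · obtain ⟨S, hS, h1, h2⟩ := fib d
      exact ⟨S, hS, fun w hw => inf_sub h1 w ((hl' w).1 hw),
        fun w hw => ver_sub d z i h1 h2 w ((hm' w).1 hw)⟩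
    · exact absurd pk' id
  · rcases k' with _ | ⟨d', z', i'⟩ | ⟨b, g, f⟩
    · obtain ⟨S, hS, h1, h2⟩ := fib d
      exact ⟨S, hS, fun w hw => ver_sub d z i h1 h2 w ((hl' w).1 hw),
        fun w hw => inf_sub h1 w ((hm' w).1 hw)⟩
    · by_cases hd : d = d'
      · subst hd
        obtain ⟨S, hS, h1, h2⟩ := fib d
        exact ⟨S, hS, fun w hw => ver_sub d z i h1 h2 w ((hl' w).1 hw),
          fun w hw => ver_sub d z' i' h1 h2 w ((hm' w).1 hw)⟩
      · have hz : z = e1 := (show e1 = z from pk).symm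
        have hz' : z' = e1 := (show e1 = z' from pk').symm
        subst hz
        subst hz'
        have hbD := HD.bB hd
        obtain ⟨g, hg, hg'⟩ := O.ex _ _ (hσ _ hbD _ (HD.b1 hd) _ (HD.b2 hd) hd) i i'
        set b := bl D d d' with hb
        let S : Finset (E ⊕ (M × G)) := univ.filter fun w => Sum.elim (fun e => e = z')
          (fun t => t.1 ∈ b ∧ γ t.2 z' = γ g (σ b t.1)) w
        have i1 : ∀ u : E, (.inl u : E ⊕ (M × G)) ∈ S ↔ u = z' := by intro u; simp [S]
        have i2 : ∀ t : M × G, (.inr t : E ⊕ (M × G)) ∈ S ↔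
            t.1 ∈ b ∧ γ t.2 z' = γ g (σ b t.1) := by intro t; simp [S]
        have mix : ∀ t : M × G, .inr t ∈ S →
            ∀ w, On2 σ γ z' e2 (.ver t.1 z' (γ t.2 z') : Bd M G E I) w → w ∈ S := by
          intro t ht w hw
          rw [i2] at ht
          rcases w with w | w
          · exact (i1 w).2 hw
          · rw [i2]
            have h1 : w.1 = t.1 ∧ γ w.2 z' = γ t.2 z' := hw
            rw [h1.1, h1.2]
            exact ht
        refine ⟨S, pla_of2 HB ?_ ?_, ?_, ?_⟩
        · rw [card_disj S {z'} (b.biUnion fun d => (univ.filter fun h =>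
              γ h z' = γ g (σ b d)).image fun h => (d, h)) (fun y => by rw [i1]; simp)
              (fun t => by
                rw [i2, mem_biUnion]
                constructor
                · rintro ⟨h1, h2⟩
                  exact ⟨t.1, h1, mem_image.2 ⟨t.2, by simpa using h2, rfl⟩⟩
                · rintro ⟨d, hd, h⟩
                  obtain ⟨v, hv, rfl⟩ := mem_image.1 h
                  exact ⟨hd, by simpa using hv⟩), card_singleton, card_biUnion]
          · rw [sum_congr rfl (fun d _ => by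
              rw [card_image_of_injective _ (fun v v' h => by simpa using h),
                card_row O h12 (γ g (σ b d)), hI]), sum_const, smul_eq_mul, HD.size b hbD]
            ring
          · intro d _ d' _ hdd
            rw [Function.onFun, disjoint_left]
            intro t h h'
            obtain ⟨v, _, rfl⟩ := mem_image.1 h
            obtain ⟨v', _, h2⟩ := mem_image.1 h'
            simp only [Prod.mk.injEq] at h2
            exact hdd h2.1.symm
        · intro w hw w' hw' hne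
          rcases w with y | t <;> rcases w' with y' | t'
          · rw [i1] at hw hw'
            exact absurd (by rw [hw, hw']) hne
          · rw [i1] at hw
            exact ⟨.ver t'.1 z' (γ t'.2 z'), trivial, hw, ⟨rfl, rfl⟩, mix t' hw'⟩
          · rw [i1] at hw'
            exact ⟨.ver t.1 z' (γ t.2 z'), trivial, ⟨rfl, rfl⟩, hw', mix t hw⟩
          · by_cases ht : t.1 = t'.1
            · refine ⟨.ver t.1 z' (γ t.2 z'), trivial, ⟨rfl, rfl⟩, ⟨ht.symm, ?_⟩, mix t hw⟩
              rw [i2] at hw hw'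
              rw [hw.2, hw'.2, ht]
            · rw [i2] at hw hw'
              obtain ⟨f, hf, hf'⟩ := O.ex _ _ (hσ _ hbD _ hw.1 _ hw'.1 ht) (γ t.2 e2) (γ t'.2 e2)
              refine ⟨.tra b g f, hbD, ⟨hw.1, hw.2, hf.symm⟩, ⟨hw'.1, hw'.2, hf'.symm⟩, ?_⟩
              intro u hu
              rcases u with u | u
              · exact absurd hu id
              · exact (i2 u).2 ⟨hu.1, hu.2.1⟩
        · intro w hw
          rw [hl'] at hw
          rcases w with w | w
          · exact (i1 w).2 hw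
          · have h1 : w.1 = d ∧ γ w.2 z' = i := hw
            rw [i2, h1.1, h1.2, hg]
            exact ⟨HD.b1 hd, rfl⟩
        · intro w hw
          rw [hm'] at hw
          rcases w with w | w
          · exact (i1 w).2 hw
          · have h1 : w.1 = d' ∧ γ w.2 z' = i' := hw
            rw [i2, h1.1, h1.2, hg']
            exact ⟨HD.b2 hd, rfl⟩
    · exact absurd pk' id
  · exact absurd pk id

theorem cone2_swap : cone2 D σ γ e1 e2 = cone2 D σ γ e2 e1 := by
  have key : ∀ e1 e2 : E, cone2 D σ γ e1 e2 ⊆ cone2 D σ γ e2 e1 := by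
    intro e1 e2 b hb
    obtain ⟨k, hk, hb'⟩ := mem_cone2.1 hb
    apply mem_cone2.2
    rcases k with _ | ⟨d, z, i⟩ | ⟨b', g, f⟩
    · refine ⟨.inf, trivial, fun w => ?_⟩
      rw [hb']
      rcases w with t | t <;> simp [On2]
    · refine ⟨.ver d z i, trivial, fun w => ?_⟩
      rw [hb']
      rcases w with t | t <;> simp [On2]
    · refine ⟨.tra b' f g, hk, fun w => ?_⟩
      rw [hb']
      rcases w with t | t
      · simp [On2]
      · simp only [On2]
        exact and_congr_right fun _ => and_comm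
  exact Subset.antisymm (key _ _) (key _ _)

theorem cone2_veblen' (HD : LS D q) (O : OA G E I γ) (hσ : Inj D σ) (h12 : e1 ≠ e2)
    (hE : Fintype.card E = q + 1) (hI : Fintype.card I = q) :
    Veblen (cone2 D σ γ e1 e2) (.inl e2) := by
  rw [cone2_swap]
  exact cone2_veblen HD O hσ h12.symm hE hI

end

end Pool.Agent.Helper19.G5
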