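import Mathlib
import Pool.Agent.Helper19.G5.Arr
import Pool.Agent.Helper19.A3.Hyp

set_option autoImplicit false
set_option linter.unusedSectionVars false

/-!
# Hyperplanes of the cones
-/

namespace Pool.Agent.Helper19.G5

open Finset Pool.Agent.V11100.VB Pool.Agent.Helper19.VS Pool.Agent.Helper19.V3
  Pool.Agent.Helper19.A3

section
variable {M G E I : Type} [DecidableEq M] {D : Finset (Finset M)} {q : ℕ}
  {σ : Finset M → M → E} {γ : G → E → I} [Fintype M] [Fintype G] [Fintype E] [Fintype I]
  [DecidableEq I]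

/-- an array with a constant row -/
theorem exists_const {γ0 : G → E → I} (O : OA G E I γ0) (g0 : G) (i0 : I) :
    ∃ γ : G → E → I, OA G E I γ ∧ ∀ e, γ g0 e = i0 := by
  classical
  refine ⟨_, OA.relabel O (fun e => Equiv.swap (γ0 g0 e) i0), fun e => ?_⟩
  exact Equiv.swap_apply_left _ _

open Classical in
/-- the hyperplane of the cone -/
noncomputable def H1 (M : Type) [Fintype M] (I : Type) [Fintype I] [DecidableEq I] (i0 : I) :
    Finset (Unit ⊕ (M × I)) :=
  univ.filter fun w => Sum.elim (fun _ => False) (fun t => t.2 = i0) w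

omit [DecidableEq M] in
theorem inl_H1 {i0 : I} {x : Unit} : (.inl x : Unit ⊕ (M × I)) ∉ H1 M I i0 := by
  simp [H1]

omit [DecidableEq M] in
theorem inr_H1 {i0 : I} {t : M × I} : (.inr t : Unit ⊕ (M × I)) ∈ H1 M I i0 ↔ t.2 = i0 := by
  simp [H1]

theorem cone1_hyp (HD : LS D q) (hE : Fintype.card E = q + 1) (O : OA G E I γ) (hσ : Inj D σ)
    {g0 : G} {i0 : I} (h0 : ∀ e, γ g0 e = i0) : Hyp (cone1 D σ γ) (H1 M I i0) := by
  intro s hs
  obtain ⟨k, hk, hs'⟩ := mem_cone1.1 hs
  rcases k with d | ⟨b, g⟩
  · right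
    refine ⟨.inr (d, i0), (hs' _).2 rfl, inr_H1.2 rfl, ?_⟩
    intro y hy hyH
    rw [hs'] at hy
    rcases y with y | y
    · exact absurd hyH inl_H1
    · rw [inr_H1] at hyH
      have h1 : y.1 = d := hy
      have h2 : y = (d, i0) := Prod.ext h1 hyH
      rw [h2]
  · by_cases hg : g = g0
    · left
      intro z hz
      rw [hs'] at hz
      rcases z with z | z
      · exact absurd hz id
      · have h1 : z.1 ∈ b ∧ z.2 = γ g (σ b z.1) := hz
        rw [inr_H1, h1.2, hg, h0]
    · right
      obtain ⟨e, he⟩ := O.agree g g0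
      rw [h0] at he
      obtain ⟨d, hd, hde⟩ := Inj.surj HD hE hσ (b := b) hk e
      refine ⟨.inr (d, i0), (hs' _).2 ⟨hd, by rw [hde, he]⟩, inr_H1.2 rfl, ?_⟩
      intro y hy hyH
      rw [hs'] at hy
      rcases y with y | y
      · exact absurd hy id
      · have h1 : y.1 ∈ b ∧ y.2 = γ g (σ b y.1) := hy
        rw [inr_H1] at hyH
        have h2 : y.1 = d := by
          by_contra hne
          have hs := hσ b hk _ h1.1 _ hd hne
          apply hg
          apply O.un _ _ hs g g0
          · rw [← h1.2, hyH, h0]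
          · rw [hde, he, h0]
        have h3 : y = (d, i0) := Prod.ext h2 hyH
        rw [h3]

omit [DecidableEq M] in
theorem card_H1 (i0 : I) : (H1 M I i0).card = Fintype.card M := by
  classical
  rw [card_disj (H1 M I i0) ∅ ((univ : Finset M).image fun d => (d, i0))
    (fun x => by simp [inl_H1]) (fun t => by
      rw [inr_H1, mem_image]
      exact ⟨fun h => ⟨t.1, mem_univ _, Prod.ext rfl h.symm⟩, fun ⟨d, _, h⟩ => by rw [← h]⟩),
    card_empty, zero_add, card_image_of_injective _ (fun d d' h => by
      simp only [Prod.mk.injEq] at h; exact h.1), card_univ]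

variable [DecidableEq G] [DecidableEq E] {e1 e2 : E}

open Classical in
/-- the hyperplane of the double cone -/
noncomputable def H2 (M : Type) [Fintype M] (γ : G → E → I) (z : E) (i0 : I) :
    Finset (E ⊕ (M × G)) :=
  univ.filter fun w => Sum.elim (fun t => t = z) (fun t : M × G => γ t.2 z = i0) w

omit [DecidableEq M] in
theorem inl_H2 {z : E} {i0 : I} {t : E} :
    (.inl t : E ⊕ (M × G)) ∈ H2 M γ z i0 ↔ t = z := by
  simp [H2]

omit [DecidableEq M] in
theorem inr_H2 {z : E} {i0 : I} {t : M × G} :
    (.inr t : E ⊕ (M × G)) ∈ H2 M γ z i0 ↔ γ t.2 z = i0 := by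
  simp [H2]

theorem cone2_hyp (HD : LS D q) (hE : Fintype.card E = q + 1) (O : OA G E I γ) (hσ : Inj D σ)
    (h12 : e1 ≠ e2) {z : E} {i0 : I}
    (hd : ∀ h, γ h z = i0 ↔ γ h e1 = γ h e2) : Hyp (cone2 D σ γ e1 e2) (H2 M γ z i0) := by
  intro b hb
  obtain ⟨k, hk', hk⟩ := mem_cone2.1 hb
  rcases k with _ | ⟨e, z', i⟩ | ⟨b', g, f⟩
  · right
    refine ⟨.inl z, (hk _).2 trivial, inl_H2.2 rfl, ?_⟩
    intro y hy hy'
    rcases y with t | t
    · rw [inl_H2] at hy'
      rw [hy']
    · exact absurd ((hk _).1 hy) id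
  · by_cases hz : z' = z
    · subst hz
      by_cases hi : i = i0
      · subst hi
        left
        intro y hy
        rw [hk] at hy
        rcases y with t | t
        · exact inl_H2.2 hy
        · exact inr_H2.2 hy.2
      · right
        refine ⟨.inl z', (hk _).2 rfl, inl_H2.2 rfl, ?_⟩
        intro y hy hy'
        rw [hk] at hy
        rcases y with t | t
        · rw [inl_H2] at hy'
          rw [hy']
        · rw [inr_H2] at hy'
          exact absurd (hy.2.symm.trans hy') hi
    · right
      obtain ⟨d, h1, h2⟩ := O.ex z' z hz i i0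
      refine ⟨.inr (e, d), (hk _).2 ⟨rfl, h1⟩, inr_H2.2 h2, ?_⟩
      intro y hy hy'
      rw [hk] at hy
      rcases y with t | ⟨a, t⟩
      · rw [inl_H2] at hy'
        exact absurd (hy.symm.trans hy') hz
      · rw [inr_H2] at hy'
        obtain ⟨h3, h4⟩ := hy
        simp only at h3 h4 hy'
        rw [h3, O.un z' z hz t d (h4.trans h1.symm) (hy'.trans h2.symm)]
  · by_cases hgf : g = f
    · subst hgf
      left
      intro y hy
      rw [hk] at hy
      rcases y with t | t
      · exact absurd hy id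
      · rw [inr_H2, hd]
        exact hy.2.1.trans hy.2.2.symm
    · right
      obtain ⟨a, ha⟩ := O.agree g f
      obtain ⟨m, hm, hma⟩ := Inj.surj HD hE hσ (b := b') hk' a
      obtain ⟨d, h1, h2⟩ := O.ex e1 e2 h12 (γ g a) (γ f a)
      refine ⟨.inr (m, d), (hk _).2 ⟨hm, by rw [hma]; exact h1, by rw [hma]; exact h2⟩, ?_, ?_⟩
      · rw [inr_H2, hd]
        show γ d e1 = γ d e2
        rw [h1, h2, ha]
      · intro y hy hy'
        rw [hk] at hy
        rcases y with t | ⟨m', t⟩
        · exact absurd hy id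
        · rw [inr_H2, hd] at hy'
          obtain ⟨h0, h3, h4⟩ := hy
          simp only at h0 h3 h4 hy'
          have hmm : m' = m := by
            by_contra hne
            have hs := hσ b' hk' _ h0 _ hm hne
            rw [hma] at hs
            exact hgf (O.un _ a hs g f (by rw [← h3, ← h4, hy']) ha)
          subst hmm
          rw [hma] at h3 h4
          rw [O.un e1 e2 h12 t d (h3.trans h1.symm) (h4.trans h2.symm)]

theorem card_H2 (O : OA G E I γ) {z z' : E} (hz : z ≠ z') (hI : Fintype.card I = q) (i0 : I) :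
    (H2 M γ z i0).card = 1 + Fintype.card M * q := by
  classical
  rw [card_disj (H2 M γ z i0) {z} ((univ : Finset M) ×ˢ (univ.filter fun h => γ h z = i0))
    (fun x => by rw [inl_H2]; simp) (fun t => by rw [inr_H2]; simp), card_singleton, card_product,
    card_univ, card_row O hz i0, hI]

end

end Pool.Agent.Helper19.G5
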