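import Mathlib
import Pool.Agent.Helper19.G5.FldSys

set_option autoImplicit false
set_option linter.unusedSectionVars false

/-!
# The points of the projective space are Veblen points of the extended system
-/

namespace Pool.Agent.Helper19.G5

open Finset Pool.Agent.V11100.VB Pool.Agent.Helper19.VS Pool.Agent.Helper19.V3
  Pool.Agent.Helper19.A3 Module
open scoped LinearAlgebra.Projectivization

section
variable {K W M : Type} [Field K] [AddCommGroup W] [Module K W] [DecidableEq M] [Fintype M]
  [Fintype K] [Fintype W] [Fintype (ℙ K W)] [DecidableEq (ℙ K W)] [DecidableEq W]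
  {D : Finset (Finset M)} {q : ℕ} {c : Finset M → M → K × K}

theorem solve_mem {α β α' β' : K} (h : α * β' - β * α' ≠ 0) (S : Submodule K W) {u w : W}
    (h1 : α • u + β • w ∈ S) (h2 : α' • u + β' • w ∈ S) : u ∈ S ∧ w ∈ S := by
  have e1 : (α * β' - β * α') • u ∈ S := by
    have : (α * β' - β * α') • u = β' • (α • u + β • w) - β • (α' • u + β' • w) := by module
    rw [this]
    exact S.sub_mem (S.smul_mem _ h1) (S.smul_mem _ h2)
  have e2 : (α * β' - β * α') • w ∈ S := by
    have : (α * β' - β * α') • w = α • (α' • u + β' • w) - α' • (α • u + β • w) := by module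
    rw [this]
    exact S.sub_mem (S.smul_mem _ h2) (S.smul_mem _ h1)
  exact ⟨(S.smul_mem_iff h).1 e1, (S.smul_mem_iff h).1 e2⟩

/-- a criterion for planes -/
theorem pla_of (HB : LS (fB (K := K) (W := W) D c) q) {S : Finset (ℙ K W ⊕ (M × W))}
    (hcard : S.card = (q + 1) * q + 1)
    (hS : ∀ w ∈ S, ∀ w' ∈ S, w ≠ w' → ∃ k : Bk K W M, Ok D k ∧ On c k w ∧ On c k w' ∧
      ∀ z, On c k z → z ∈ S) : Pla (fB (K := K) (W := W) D c) q S := by
  classical
  refine ⟨hcard, fun w hw w' hw' hne => ?_⟩
  obtain ⟨k, hk, h1, h2, h3⟩ := hS w hw w' hw' hne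
  rw [HB.bl_eq hne (b := univ.filter (On c k)) (mem_fB.2 ⟨k, hk, fun w => by simp⟩)
    (by simpa using h1) (by simpa using h2)]
  intro z hz
  exact h3 z (by simpa using hz)

open Classical in
/-- planes inside the projective space -/
noncomputable def F1 (K W M : Type) [Field K] [AddCommGroup W] [Module K W] [Fintype M] [Fintype W]
    [Fintype (ℙ K W)] (T : Submodule K W) : Finset (ℙ K W ⊕ (M × W)) :=
  univ.filter fun w => Sum.elim (fun x => x.submodule ≤ T) (fun _ => False) w

open Classical in
/-- planes that consist of a line and a part of one fibre -/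
noncomputable def F2 (d : M) (S : Submodule K W) (v : W) : Finset (ℙ K W ⊕ (M × W)) :=
  univ.filter fun w => Sum.elim (fun x => x.submodule ≤ S) (fun t => t.1 = d ∧ t.2 - v ∈ S) w

open Classical in
/-- planes over a block -/
noncomputable def F3 (c : Finset M → M → K × K) (b : Finset M) (x : ℙ K W) (u w : W) :
    Finset (ℙ K W ⊕ (M × W)) :=
  univ.filter fun z => Sum.elim (fun y => y = x)
    (fun t => t.1 ∈ b ∧ t.2 - ((c b t.1).1 • u + (c b t.1).2 • w) ∈ x.submodule) z

theorem pla1 (HB : LS (fB (K := K) (W := W) D c) q) (hK : Fintype.card K = q)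
    {T : Submodule K W} (hT : finrank K T = 3) :
    Pla (fB (K := K) (W := W) D c) q (F1 K W M T) := by
  classical
  have hK' : Nat.card K = q := by rw [Nat.card_eq_fintype_card, hK]
  refine pla_of HB ?_ ?_
  · rw [card_disj (F1 K W M T) (univ.filter fun x => x.submodule ≤ T) ∅ (by simp [F1])
      (by simp [F1]), card_empty, card_proj T _ (by simp), hT, hK']
    simp only [sum_range_succ, range_zero, sum_empty, pow_zero, pow_one]
    ring
  · intro w hw w' hw' hne
    rcases w with x | t <;> rcases w' with y | t' <;>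
      simp only [F1, mem_filter, mem_univ, true_and, Sum.elim_inl, Sum.elim_inr] at hw hw'
    have hxy : x ≠ y := fun e => hne (by rw [e])
    refine ⟨.L1 (x.submodule ⊔ y.submodule), rank_sup hxy,
      (le_sup_left : x.submodule ≤ x.submodule ⊔ y.submodule),
      (le_sup_right : y.submodule ≤ x.submodule ⊔ y.submodule), ?_⟩
    intro z hz
    rcases z with z | z
    · simp only [F1, mem_filter, mem_univ, true_and, Sum.elim_inl]
      exact le_trans hz (sup_le hw hw')
    · exact absurd hz id

theorem pla2 (HB : LS (fB (K := K) (W := W) D c) q) (hK : Fintype.card K = q) (d : M)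
    {S : Submodule K W} (hS : finrank K S = 2) (v : W) :
    Pla (fB (K := K) (W := W) D c) q (F2 d S v) := by
  classical
  have hK' : Nat.card K = q := by rw [Nat.card_eq_fintype_card, hK]
  have i1 : ∀ x : ℙ K W, (.inl x : ℙ K W ⊕ (M × W)) ∈ F2 d S v ↔ x.submodule ≤ S := by
    simp [F2]
  have i2 : ∀ t : M × W, (.inr t : ℙ K W ⊕ (M × W)) ∈ F2 d S v ↔ t.1 = d ∧ t.2 - v ∈ S := by
    simp [F2]
  refine pla_of HB ?_ ?_
  · rw [card_disj (F2 d S v) (univ.filter fun x => x.submodule ≤ S)
      ((univ.filter fun w => w - v ∈ S).image fun w => (d, w)) (by simp [i1]) (fun t => by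
        rw [i2, mem_image]
        constructor
        · rintro ⟨h1, h2⟩
          exact ⟨t.2, by simpa using h2, Prod.ext h1.symm rfl⟩
        · rintro ⟨w, h, rfl⟩
          exact ⟨rfl, by simpa using h⟩), card_proj S _ (by simp),
      card_image_of_injective _ (fun w w' h => by simpa using h),
      card_coset S v _ (fun w => by simp), hS, hK']
    simp only [sum_range_succ, range_zero, sum_empty, pow_zero, pow_one]
    ring
  · intro w hw w' hw' hne
    have mix : ∀ (x : ℙ K W) (t : M × W), x.submodule ≤ S → t.1 = d → t.2 - v ∈ S →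
        ∀ z, On c (.L2 t.1 x t.2) z → z ∈ F2 d S v := by
      intro x t hx h1 h2 z hz
      rcases z with z | z
      · rw [i1]
        have : z = x := hz
        rw [this]; exact hx
      · rw [i2]
        obtain ⟨h3, h4⟩ : z.1 = t.1 ∧ z.2 - t.2 ∈ x.submodule := hz
        refine ⟨h3.trans h1, ?_⟩
        have : z.2 - v = (z.2 - t.2) + (t.2 - v) := by abel
        rw [this]
        exact S.add_mem (hx h4) h2
    rcases w with x | t <;> rcases w' with y | t'
    · rw [i1] at hw hw'
      have hxy : x ≠ y := fun e => hne (by rw [e])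
      refine ⟨.L1 (x.submodule ⊔ y.submodule), rank_sup hxy,
        (le_sup_left : x.submodule ≤ x.submodule ⊔ y.submodule),
        (le_sup_right : y.submodule ≤ x.submodule ⊔ y.submodule), ?_⟩
      intro z hz
      rcases z with z | z
      · rw [i1]
        exact le_trans hz (sup_le hw hw')
      · exact absurd hz id
    · rw [i1] at hw
      rw [i2] at hw'
      exact ⟨.L2 t'.1 x t'.2, trivial, rfl, ⟨rfl, by simp⟩, mix x t' hw hw'.1 hw'.2⟩
    · rw [i2] at hw
      rw [i1] at hw'
      exact ⟨.L2 t.1 y t.2, trivial, ⟨rfl, by simp⟩, rfl, mix y t hw' hw.1 hw.2⟩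
    · rw [i2] at hw hw'
      have hv : t'.2 - t.2 ≠ 0 := by
        intro h
        rw [sub_eq_zero] at h
        exact hne (by rw [Prod.ext (hw.1.trans hw'.1.symm) h.symm])
      have hmem : t'.2 - t.2 ∈ S := by
        have : t'.2 - t.2 = (t'.2 - v) - (t.2 - v) := by abel
        rw [this]
        exact S.sub_mem hw'.2 hw.2
      refine ⟨.L2 t.1 (Projectivization.mk K (t'.2 - t.2) hv) t.2, trivial, ⟨rfl, by simp⟩,
        ⟨hw'.1.trans hw.1.symm, mem_mk hv⟩, mix _ t ?_ hw.1 hw.2⟩
      rw [Projectivization.submodule_mk, Submodule.span_singleton_le_iff_mem]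
      exact hmem

theorem pla3 (HD : LS D q) (HB : LS (fB (K := K) (W := W) D c) q) (hK : Fintype.card K = q)
    (hc : Ind D c) {b : Finset M} (hb : b ∈ D) (x : ℙ K W) (u w : W) :
    Pla (fB (K := K) (W := W) D c) q (F3 c b x u w) := by
  classical
  have hK' : Nat.card K = q := by rw [Nat.card_eq_fintype_card, hK]
  have i1 : ∀ y : ℙ K W, (.inl y : ℙ K W ⊕ (M × W)) ∈ F3 c b x u w ↔ y = x := by
    simp [F3]
  have i2 : ∀ t : M × W, (.inr t : ℙ K W ⊕ (M × W)) ∈ F3 c b x u w ↔
      t.1 ∈ b ∧ t.2 - ((c b t.1).1 • u + (c b t.1).2 • w) ∈ x.submodule := by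
    simp [F3]
  refine pla_of HB ?_ ?_
  · rw [card_disj (F3 c b x u w) {x} (b.biUnion fun d => (univ.filter fun v =>
        v - ((c b d).1 • u + (c b d).2 • w) ∈ x.submodule).image fun v => (d, v))
        (fun y => by rw [i1]; simp) (fun t => by
        rw [i2, mem_biUnion]
        constructor
        · rintro ⟨h1, h2⟩
          exact ⟨t.1, h1, mem_image.2 ⟨t.2, by simpa using h2, rfl⟩⟩
        · rintro ⟨d, hd, h⟩
          obtain ⟨v, hv, rfl⟩ := mem_image.1 h
          exact ⟨hd, by simpa using hv⟩), card_singleton, card_biUnion]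
    · rw [sum_congr rfl (fun d _ => by
        rw [card_image_of_injective _ (fun v v' h => by simpa using h),
          card_coset x.submodule ((c b d).1 • u + (c b d).2 • w) _ (fun v => by simp),
          x.finrank_submodule, hK', pow_one]), sum_const, smul_eq_mul, HD.size b hb]
      ring
    · intro d _ d' _ hdd
      rw [Function.onFun, disjoint_left]
      intro t h h'
      obtain ⟨v, _, rfl⟩ := mem_image.1 h
      obtain ⟨v', _, h2⟩ := mem_image.1 h'
      simp only [Prod.mk.injEq] at h2
      exact hdd h2.1.symm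
  · intro w1 hw w2 hw' hne
    have mix : ∀ (t : M × W), t.1 ∈ b →
        t.2 - ((c b t.1).1 • u + (c b t.1).2 • w) ∈ x.submodule →
        ∀ z, On c (.L2 t.1 x t.2) z → z ∈ F3 c b x u w := by
      intro t h1 h2 z hz
      rcases z with z | z
      · rw [i1]
        exact hz
      · rw [i2]
        obtain ⟨h3, h4⟩ : z.1 = t.1 ∧ z.2 - t.2 ∈ x.submodule := hz
        rw [h3]
        refine ⟨h1, ?_⟩
        have : z.2 - ((c b t.1).1 • u + (c b t.1).2 • w) =
            (z.2 - t.2) + (t.2 - ((c b t.1).1 • u + (c b t.1).2 • w)) := by abel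
        rw [this]
        exact Submodule.add_mem _ h4 h2
    rcases w1 with y | t <;> rcases w2 with y' | t'
    · rw [i1] at hw hw'
      exact absurd (by rw [hw, hw']) hne
    · rw [i1] at hw
      rw [i2] at hw'
      exact ⟨.L2 t'.1 x t'.2, trivial, hw, ⟨rfl, by simp⟩, mix t' hw'.1 hw'.2⟩
    · rw [i2] at hw
      rw [i1] at hw'
      exact ⟨.L2 t.1 x t.2, trivial, ⟨rfl, by simp⟩, hw', mix t hw.1 hw.2⟩
    · rw [i2] at hw hw'
      by_cases ht : t.1 = t'.1
      · refine ⟨.L2 t.1 x t.2, trivial, ⟨rfl, by simp⟩, ⟨ht.symm, ?_⟩, mix t hw.1 hw.2⟩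
        rw [← ht] at hw'
        have : t'.2 - t.2 = (t'.2 - ((c b t.1).1 • u + (c b t.1).2 • w)) -
          (t.2 - ((c b t.1).1 • u + (c b t.1).2 • w)) := by abel
        rw [this]
        exact Submodule.sub_mem _ hw'.2 hw.2
      · have hdet := hc b hb t.1 hw.1 t'.1 hw'.1 ht
        obtain ⟨u', w', h1, h2⟩ := solve hdet t.2 t'.2
        refine ⟨.L3 b u' w', hb, ⟨hw.1, h1.symm⟩, ⟨hw'.1, h2.symm⟩, ?_⟩
        have h3 : (c b t.1).1 • (u' - u) + (c b t.1).2 • (w' - w) ∈ x.submodule := by
          have : (c b t.1).1 • (u' - u) + (c b t.1).2 • (w' - w) =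
            ((c b t.1).1 • u' + (c b t.1).2 • w') - ((c b t.1).1 • u + (c b t.1).2 • w) := by
              module
          rw [this, h1]
          exact hw.2
        have h4 : (c b t'.1).1 • (u' - u) + (c b t'.1).2 • (w' - w) ∈ x.submodule := by
          have : (c b t'.1).1 • (u' - u) + (c b t'.1).2 • (w' - w) =
            ((c b t'.1).1 • u' + (c b t'.1).2 • w') - ((c b t'.1).1 • u + (c b t'.1).2 • w) := by
              module
          rw [this, h2]
          exact hw'.2
        obtain ⟨h5, h6⟩ := solve_mem hdet _ h3 h4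
        intro z hz
        rcases z with z | z
        · exact absurd hz id
        · rw [i2]
          obtain ⟨h7, h8⟩ : z.1 ∈ b ∧ z.2 = (c b z.1).1 • u' + (c b z.1).2 • w' := hz
          refine ⟨h7, ?_⟩
          have : z.2 - ((c b z.1).1 • u + (c b z.1).2 • w) =
            (c b z.1).1 • (u' - u) + (c b z.1).2 • (w' - w) := by
              rw [h8]; module
          rw [this]
          exact Submodule.add_mem _ (Submodule.smul_mem _ _ h5) (Submodule.smul_mem _ _ h6)

theorem fB_veblen (HD : LS D q) (hK : Fintype.card K = q) (hc : Ind D c) (p : ℙ K W) :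
    Veblen (fB (K := K) (W := W) D c) (.inl p) := by
  classical
  have HB : LS (fB (K := K) (W := W) D c) q := fB_LS HD hK hc
  refine comp_veblen HB ?_
  intro l hl m hm hlm pl' pm
  obtain ⟨k, hk, hl'⟩ := mem_fB.1 hl
  obtain ⟨k', hk', hm'⟩ := mem_fB.1 hm
  have pk := (hl' _).1 pl'
  have pk' := (hm' _).1 pm
  have i1 : ∀ (d : M) (S : Submodule K W) (v : W) (x : ℙ K W),
      (.inl x : ℙ K W ⊕ (M × W)) ∈ F2 d S v ↔ x.submodule ≤ S := by simp [F2]
  have i2 : ∀ (d : M) (S : Submodule K W) (v : W) (t : M × W),
      (.inr t : ℙ K W ⊕ (M × W)) ∈ F2 d S v ↔ t.1 = d ∧ t.2 - v ∈ S := by simp [F2]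
  -- a line of the projective space and a block into a fibre
  have two : ∀ (S : Submodule K W) (d : M) (v : W), finrank K S = 2 → p.submodule ≤ S →
      (∀ z, On c (.L1 S : Bk K W M) z → z ∈ F2 d S v) ∧
        (∀ z, On c (.L2 d p v : Bk K W M) z → z ∈ F2 d S v) := by
    intro S d v _ hp
    refine ⟨fun z hz => ?_, fun z hz => ?_⟩
    · rcases z with z | z
      · exact (i1 _ _ _ _).2 hz
      · exact absurd hz id
    · rcases z with z | z
      · have : z = p := hz
        rw [this]
        exact (i1 _ _ _ _).2 hp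
      · obtain ⟨h1, h2⟩ : z.1 = d ∧ z.2 - v ∈ p.submodule := hz
        exact (i2 _ _ _ _).2 ⟨h1, hp h2⟩
  rcases k with S | ⟨d, x, v⟩ | ⟨b, u, w⟩
  · rcases k' with S' | ⟨d', x', v'⟩ | ⟨b', u', w'⟩
    · simp only [Ok] at hk hk'
      have pS : p.submodule ≤ S := pk
      have pS' : p.submodule ≤ S' := pk'
      have hSS : S ≠ S' := by
        rintro rfl
        apply hlm
        ext z
        rw [hl', hm']
      have h1 := Submodule.finrank_sup_add_finrank_inf_eq S S'
      have h2 : 1 ≤ finrank K (S ⊓ S' : Submodule K W) := by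
        rw [← p.finrank_submodule]
        exact Submodule.finrank_mono (le_inf pS pS')
      have h3 : finrank K (S ⊓ S' : Submodule K W) ≤ 2 := by
        rw [← hk]; exact Submodule.finrank_mono inf_le_left
      have h4 : finrank K (S ⊓ S' : Submodule K W) ≠ 2 := by
        intro h4
        have e1 : S ⊓ S' = S := Submodule.eq_of_le_of_finrank_eq inf_le_left (by rw [h4, hk])
        have e2 : S ⊓ S' = S' := Submodule.eq_of_le_of_finrank_eq inf_le_right (by rw [h4, hk'])
        exact hSS (e1.symm.trans e2)
      have hT : finrank K (S ⊔ S' : Submodule K W) = 3 := by omega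
      have j1 : ∀ x : ℙ K W, (.inl x : ℙ K W ⊕ (M × W)) ∈ F1 K W M (S ⊔ S') ↔
          x.submodule ≤ S ⊔ S' := by simp [F1]
      refine ⟨_, pla1 HB hK hT, ?_, ?_⟩
      · intro z hz
        rw [hl'] at hz
        rcases z with z | z
        · exact (j1 z).2 (le_trans hz le_sup_left)
        · exact absurd hz id
      · intro z hz
        rw [hm'] at hz
        rcases z with z | z
        · exact (j1 z).2 (le_trans hz le_sup_right)
        · exact absurd hz id
    · have hx : x' = p := (show p = x' from pk').symm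
      subst hx
      obtain ⟨t1, t2⟩ := two S d' v' hk pk
      exact ⟨_, pla2 HB hK d' hk v', fun z hz => t1 z ((hl' z).1 hz),
        fun z hz => t2 z ((hm' z).1 hz)⟩
    · exact absurd pk' id
  · have hx : x = p := (show p = x from pk).symm
    subst hx
    rcases k' with S' | ⟨d', x', v'⟩ | ⟨b', u', w'⟩
    · obtain ⟨t1, t2⟩ := two S' d v hk' pk'
      exact ⟨_, pla2 HB hK d hk' v, fun z hz => t2 z ((hl' z).1 hz),
        fun z hz => t1 z ((hm' z).1 hz)⟩
    · have hx' : x' = x := (show x = x' from pk').symm
      subst hx'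
      by_cases hd : d = d'
      · subst hd
        have hv : v' - v ∉ x'.submodule := by
          intro h
          apply hlm
          ext z
          rw [hl', hm']
          rcases z with z | z
          · exact Iff.rfl
          · simp only [On]
            refine and_congr_right fun _ => ⟨fun h' => ?_, fun h' => ?_⟩
            · have : z.2 - v' = (z.2 - v) - (v' - v) := by abel
              rw [this]
              exact Submodule.sub_mem _ h' h
            · have : z.2 - v = (z.2 - v') + (v' - v) := by abel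
              rw [this]
              exact Submodule.add_mem _ h' h
        have hv0 : v' - v ≠ 0 := by
          intro h
          rw [h] at hv
          exact hv (Submodule.zero_mem _)
        have hxy : x' ≠ Projectivization.mk K (v' - v) hv0 := by
          intro h
          apply hv
          rw [h]
          exact mem_mk hv0
        have hS := rank_sup hxy
        obtain ⟨t1, t2⟩ := two _ d v hS le_sup_left
        refine ⟨_, pla2 HB hK d hS v, fun z hz => t2 z ((hl' z).1 hz), fun z hz => ?_⟩
        rw [hm'] at hz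
        rcases z with z | z
        · have : z = x' := hz
          rw [this]
          exact (i1 _ _ _ _).2 le_sup_left
        · obtain ⟨h1, h2⟩ : z.1 = d ∧ z.2 - v' ∈ x'.submodule := hz
          refine (i2 _ _ _ _).2 ⟨h1, ?_⟩
          have : z.2 - v = (z.2 - v') + (v' - v) := by abel
          rw [this]
          exact Submodule.add_mem _ ((le_sup_left : x'.submodule ≤ _) h2)
            ((le_sup_right : _ ≤ x'.submodule ⊔ _) (mem_mk hv0))
      · have hb := HD.bB hd
        obtain ⟨u, w, h1, h2⟩ := solve (hc _ hb d (HD.b1 hd) d' (HD.b2 hd) hd) v v'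
        have j1 : ∀ y : ℙ K W, (.inl y : ℙ K W ⊕ (M × W)) ∈ F3 c (bl D d d') x' u w ↔ y = x' := by
          simp [F3]
        have j2 : ∀ t : M × W, (.inr t : ℙ K W ⊕ (M × W)) ∈ F3 c (bl D d d') x' u w ↔
            t.1 ∈ bl D d d' ∧
              t.2 - ((c (bl D d d') t.1).1 • u + (c (bl D d d') t.1).2 • w) ∈ x'.submodule := by
          simp [F3]
        refine ⟨_, pla3 HD HB hK hc hb x' u w, fun z hz => ?_, fun z hz => ?_⟩
        · rw [hl'] at hz
          rcases z with z | z
          · exact (j1 z).2 hz
          · obtain ⟨h3, h4⟩ : z.1 = d ∧ z.2 - v ∈ x'.submodule := hz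
            rw [j2, h3, h1]
            exact ⟨HD.b1 hd, h4⟩
        · rw [hm'] at hz
          rcases z with z | z
          · exact (j1 z).2 hz
          · obtain ⟨h3, h4⟩ : z.1 = d' ∧ z.2 - v' ∈ x'.submodule := hz
            rw [j2, h3, h2]
            exact ⟨HD.b2 hd, h4⟩
    · exact absurd pk' id
  · exact absurd pk id

end

/-- pairwise independent vectors exist -/
theorem exists_ind {K M : Type} [Field K] [Fintype K] [DecidableEq M] {D : Finset (Finset M)}
    {q : ℕ} (HD : LS D q) (hK : Fintype.card K = q) :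
    ∃ c : Finset M → M → K × K, Ind D c := by
  classical
  have key : ∀ b ∈ D, ∃ f : M → K × K, ∀ d ∈ b, ∀ d' ∈ b, d ≠ d' →
      (f d).1 * (f d').2 - (f d).2 * (f d').1 ≠ 0 := by
    intro b hb
    have e : Fintype.card b = Fintype.card (Option K) := by
      rw [Fintype.card_coe, HD.size b hb, Fintype.card_option, hK]
    let σ : b ≃ Option K := Fintype.equivOfCardEq e
    let g : Option K → K × K := fun o => o.elim (0, 1) (fun t => (1, t))
    have hg : ∀ o o' : Option K, o ≠ o' → (g o).1 * (g o').2 - (g o).2 * (g o').1 ≠ 0 := by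
      intro o o' hne
      rcases o with _ | s <;> rcases o' with _ | s'
      · exact absurd rfl hne
      · simp [g]
      · simp [g]
      · simp only [g, Option.elim, one_mul, mul_one]
        intro h
        rw [sub_eq_zero] at h
        exact hne (by rw [h])
    refine ⟨fun d => if h : d ∈ b then g (σ ⟨d, h⟩) else (0, 0), ?_⟩
    intro d hd d' hd' hne
    simp only [dif_pos hd, dif_pos hd']
    apply hg
    intro h
    have := σ.injective h
    exact hne (congrArg Subtype.val this)
  choose! f hf using key
  exact ⟨f, hf⟩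

end Pool.Agent.Helper19.G5
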