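import Mathlib
import Pool.Agent.Helper19.G5.FldVeb
import Pool.Agent.Helper19.A3.Hyp

set_option autoImplicit false
set_option linter.unusedSectionVars false

/-!
# A hyperplane of the extended Steiner system
-/

namespace Pool.Agent.Helper19.G5

open Finset Pool.Agent.V11100.VB Pool.Agent.Helper19.VS Pool.Agent.Helper19.V3
  Pool.Agent.Helper19.A3 Module
open scoped LinearAlgebra.Projectivization

section
variable {K W M : Type} [Field K] [AddCommGroup W] [Module K W] [DecidableEq M] [Fintype M]
  [Fintype K] [Fintype W] [Fintype (ℙ K W)] [DecidableEq (ℙ K W)] [DecidableEq W]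
  {D : Finset (Finset M)} {q : ℕ} {c : Finset M → M → K × K}

open Classical in
/-- the hyperplane -/
noncomputable def fH (M : Type) [Fintype M] (l : W →ₗ[K] K) : Finset (ℙ K W ⊕ (M × W)) :=
  univ.filter fun w => Sum.elim (fun x => x.submodule ≤ LinearMap.ker l) (fun t => l t.2 = 0) w

theorem inl_fH {l : W →ₗ[K] K} {x : ℙ K W} :
    (.inl x : ℙ K W ⊕ (M × W)) ∈ fH M l ↔ x.submodule ≤ LinearMap.ker l := by
  simp [fH]

theorem inr_fH {l : W →ₗ[K] K} {t : M × W} :
    (.inr t : ℙ K W ⊕ (M × W)) ∈ fH M l ↔ l t.2 = 0 := by
  simp [fH]

/-- one of the vectors belonging to a block is orthogonal to a given one -/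
theorem exists_orth (HD : LS D q) (hK : Fintype.card K = q) (hc : Ind D c) {b : Finset M}
    (hb : b ∈ D) (α β : K) : ∃ d ∈ b, (c b d).1 * α + (c b d).2 * β = 0 := by
  classical
  by_contra hcon
  push Not at hcon
  obtain ⟨d0, hd0⟩ : b.Nonempty := by rw [← card_pos, HD.size b hb]; omega
  have h0 : ¬ (α = 0 ∧ β = 0) := by
    rintro ⟨rfl, rfl⟩
    exact hcon d0 hd0 (by simp)
  obtain ⟨μ, ν, hdet⟩ : ∃ μ ν : K, μ * β - ν * α ≠ 0 := by
    by_cases hα : α = 0
    · exact ⟨1, 0, by
        rw [one_mul, zero_mul, sub_zero]
        exact fun h => h0 ⟨hα, h⟩⟩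
    · exact ⟨0, 1, by
        rw [zero_mul, one_mul, zero_sub]
        exact neg_ne_zero.2 hα⟩
  have hinj : Set.InjOn (fun d => ((c b d).1 * μ + (c b d).2 * ν) /
      ((c b d).1 * α + (c b d).2 * β)) b := by
    intro d hd d' hd' h
    by_contra hne
    have h1 := hcon d hd
    have h2 := hcon d' hd'
    have h3 := hc b hb d hd d' hd' hne
    simp only at h
    rw [div_eq_div_iff h1 h2] at h
    have h4 : (μ * β - ν * α) * ((c b d).1 * (c b d').2 - (c b d).2 * (c b d').1) = 0 := by
      linear_combination h
    rcases mul_eq_zero.1 h4 with h5 | h5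
    · exact hdet h5
    · exact h3 h5
  have h1 := card_image_of_injOn hinj
  have h2 := card_le_univ (b.image fun d => ((c b d).1 * μ + (c b d).2 * ν) /
      ((c b d).1 * α + (c b d).2 * β))
  rw [h1, HD.size b hb, hK] at h2
  omega

theorem fB_hyp (HD : LS D q) (hK : Fintype.card K = q) (hc : Ind D c) (l : W →ₗ[K] K) :
    Hyp (fB (K := K) (W := W) D c) (fH M l) := by
  classical
  intro s hs
  obtain ⟨k, hk, hs'⟩ := mem_fB.1 hs
  rcases k with S | ⟨d, x, v⟩ | ⟨b, u, w⟩
  · by_cases hS : S ≤ LinearMap.ker l
    · left
      intro z hz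
      rw [hs'] at hz
      rcases z with z | z
      · exact inl_fH.2 (le_trans hz hS)
      · exact absurd hz id
    · right
      simp only [Ok] at hk
      have h1 : finrank K (S ⊓ LinearMap.ker l : Submodule K W) < finrank K S := by
        apply Submodule.finrank_lt_finrank_of_lt
        refine lt_of_le_of_ne inf_le_left fun h => hS ?_
        rw [← h]
        exact inf_le_right
      obtain ⟨v0, hv0, hl0⟩ : ∃ v0 ∈ S, l v0 ≠ 0 := by
        by_contra hcon
        push Not at hcon
        exact hS fun v hv => LinearMap.mem_ker.2 (hcon v hv)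
      have h2 : finrank K (S ⊓ LinearMap.ker l : Submodule K W) ≠ 0 := by
        intro h
        rw [Submodule.finrank_eq_zero] at h
        -- then `S` is spanned by `v0`
        have h3 : S ≤ Submodule.span K {v0} := by
          intro v hv
          rw [Submodule.mem_span_singleton]
          refine ⟨l v / l v0, ?_⟩
          have h4 : v - (l v / l v0) • v0 ∈ S ⊓ LinearMap.ker l := by
            refine ⟨S.sub_mem hv (S.smul_mem _ hv0), LinearMap.mem_ker.2 ?_⟩
            rw [map_sub, map_smul, smul_eq_mul, div_mul_cancel₀ _ hl0, sub_self]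
          rw [h, Submodule.mem_bot, sub_eq_zero] at h4
          exact h4.symm
        have h5 := Submodule.finrank_mono h3
        have h6 := finrank_span_singleton (K := K) (v := v0) (fun h => hl0 (by rw [h, map_zero]))
        omega
      obtain ⟨x, hx⟩ := exists_pt h2
      refine ⟨.inl x, (hs' _).2 (hx.trans inf_le_left), inl_fH.2 (hx.trans inf_le_right), ?_⟩
      intro y hy hyH
      rw [hs'] at hy
      rcases y with y | y
      · rw [inl_fH] at hyH
        by_contra hne
        have hxy : x ≠ y := fun e => hne (by rw [e])
        have h3 := rank_sup hxy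
        have h4 : x.submodule ⊔ y.submodule ≤ S ⊓ LinearMap.ker l :=
          sup_le hx (le_inf hy hyH)
        have := Submodule.finrank_mono h4
        omega
      · exact absurd hy id
  · by_cases hx : x.submodule ≤ LinearMap.ker l
    · by_cases hv : l v = 0
      · left
        intro z hz
        rw [hs'] at hz
        rcases z with z | z
        · have : z = x := hz
          rw [inl_fH, this]
          exact hx
        · obtain ⟨h1, h2⟩ : z.1 = d ∧ z.2 - v ∈ x.submodule := hz
          have h3 := LinearMap.mem_ker.1 (hx h2)
          rw [inr_fH]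
          rw [map_sub, hv, sub_zero] at h3
          exact h3
      · right
        refine ⟨.inl x, (hs' _).2 rfl, inl_fH.2 hx, ?_⟩
        intro y hy hyH
        rw [hs'] at hy
        rcases y with y | y
        · have : y = x := hy
          rw [this]
        · obtain ⟨h1, h2⟩ : y.1 = d ∧ y.2 - v ∈ x.submodule := hy
          have h3 := LinearMap.mem_ker.1 (hx h2)
          rw [inr_fH] at hyH
          rw [map_sub, hyH, zero_sub, neg_eq_zero] at h3
          exact absurd h3 hv
    · right
      obtain ⟨v0, hv0, hl0⟩ : ∃ v0 ∈ x.submodule, l v0 ≠ 0 := by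
        by_contra hcon
        push Not at hcon
        exact hx fun v hv => LinearMap.mem_ker.2 (hcon v hv)
      refine ⟨.inr (d, v - (l v / l v0) • v0), (hs' _).2 ⟨rfl, ?_⟩, inr_fH.2 ?_, ?_⟩
      · have : v - (l v / l v0) • v0 - v = -((l v / l v0) • v0) := by abel
        show v - (l v / l v0) • v0 - v ∈ x.submodule
        rw [this]
        exact Submodule.neg_mem _ (Submodule.smul_mem _ _ hv0)
      · show l (v - (l v / l v0) • v0) = 0
        rw [map_sub, map_smul, smul_eq_mul, div_mul_cancel₀ _ hl0, sub_self]
      · intro y hy hyH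
        rw [hs'] at hy
        rcases y with y | y
        · have : y = x := hy
          rw [inl_fH, this] at hyH
          exact absurd hyH hx
        · obtain ⟨h1, h2⟩ : y.1 = d ∧ y.2 - v ∈ x.submodule := hy
          rw [inr_fH] at hyH
          -- the submodule is spanned by `v0`
          have hv00 : v0 ≠ 0 := fun h => hl0 (by rw [h, map_zero])
          have h3 : Submodule.span K {v0} = x.submodule := by
            apply Submodule.eq_of_le_of_finrank_eq
            · rw [Submodule.span_singleton_le_iff_mem]; exact hv0
            · rw [finrank_span_singleton hv00, x.finrank_submodule]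
          rw [← h3, Submodule.mem_span_singleton] at h2
          obtain ⟨a, ha⟩ := h2
          have h4 : a * l v0 = - l v := by
            have := congrArg l ha
            rw [map_smul, map_sub, hyH, zero_sub, smul_eq_mul] at this
            exact this
          have h5 : a = -(l v / l v0) := by
            rw [← neg_div, eq_div_iff hl0, h4]
          have h6 : y.2 = v - (l v / l v0) • v0 := by
            have : y.2 = a • v0 + v := by rw [ha]; abel
            rw [this, h5]
            module
          rw [← h6, ← h1]
  · by_cases h : l u = 0 ∧ l w = 0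
    · left
      intro z hz
      rw [hs'] at hz
      rcases z with z | z
      · exact absurd hz id
      · obtain ⟨h1, h2⟩ : z.1 ∈ b ∧ z.2 = (c b z.1).1 • u + (c b z.1).2 • w := hz
        rw [inr_fH, h2, map_add, map_smul, map_smul, h.1, h.2]
        simp
    · right
      obtain ⟨d, hd, hd0⟩ := exists_orth HD hK hc (b := b) hk (l u) (l w)
      refine ⟨.inr (d, (c b d).1 • u + (c b d).2 • w), (hs' _).2 ⟨hd, rfl⟩, inr_fH.2 ?_, ?_⟩
      · show l ((c b d).1 • u + (c b d).2 • w) = 0
        rw [map_add, map_smul, map_smul, smul_eq_mul, smul_eq_mul]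
        exact hd0
      · intro y hy hyH
        rw [hs'] at hy
        rcases y with y | y
        · exact absurd hy id
        · obtain ⟨h1, h2⟩ : y.1 ∈ b ∧ y.2 = (c b y.1).1 • u + (c b y.1).2 • w := hy
          rw [inr_fH, h2, map_add, map_smul, map_smul, smul_eq_mul, smul_eq_mul] at hyH
          have h3 : y.1 = d := by
            by_contra hne
            have hdet := hc b hk y.1 h1 d hd hne
            apply h
            have e1 : ((c b y.1).1 * (c b d).2 - (c b y.1).2 * (c b d).1) * l u = 0 := by
              linear_combination (c b d).2 * hyH - (c b y.1).2 * hd0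
            have e2 : ((c b y.1).1 * (c b d).2 - (c b y.1).2 * (c b d).1) * l w = 0 := by
              linear_combination (c b y.1).1 * hd0 - (c b d).1 * hyH
            exact ⟨(mul_eq_zero.1 e1).resolve_left hdet, (mul_eq_zero.1 e2).resolve_left hdet⟩
          have h4 : y = (d, (c b d).1 • u + (c b d).2 • w) := by
            refine Prod.ext h3 ?_
            rw [h2, h3]
          rw [h4]

theorem card_fH (hK : Fintype.card K = q) (l : W →ₗ[K] K) :
    (fH M l).card = ∑ i ∈ range (finrank K (LinearMap.ker l)), q ^ i +
      Fintype.card M * q ^ finrank K (LinearMap.ker l) := by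
  classical
  have hK' : Nat.card K = q := by rw [Nat.card_eq_fintype_card, hK]
  rw [card_disj (fH M l) (univ.filter fun x => x.submodule ≤ LinearMap.ker l)
    ((univ : Finset M) ×ˢ (univ.filter fun w => l w = 0)) (fun x => by rw [inl_fH]; simp)
    (fun t => by rw [inr_fH]; simp), card_proj (LinearMap.ker l) _ (by simp), card_product,
    card_univ, card_coset (LinearMap.ker l) 0 _ (fun w => by simp), hK']

end

end Pool.Agent.Helper19.G5
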